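import Pool.Agent.Lib.MP_bc213e_ag.DL.BL0

/-! A uniform bound for the order of vanishing of a section at a point of the fibre. -/

namespace Pool.Agent.Lib.MP_bc213e_ag.DD.Geo

open Pool.Agent.Lib.MP_bc213e_ag.DL

variable {K M ι : Type} [Field K] [Algebra ℂ K] [Field M] [Algebra ℂ M] [Algebra K M] {n : ℕ}
  {S : Su K M ι n} {Ω E : Type} [Field Ω] [Algebra ℂ Ω] [Field E] [Algebra ℂ E] [Algebra Ω E]
  [IsScalarTower ℂ Ω E] {b φ : ℕ} (G : Geo S Ω E b φ) [IsScalarTower ℂ K M] [Fintype ι]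
  [IsAlgClosed Ω]

omit [Algebra ℂ Ω] [Algebra ℂ E] [IsScalarTower ℂ Ω E] [IsAlgClosed Ω] in
theorem bl_int {κ : Type} (y : κ → E) {r : E}
    (hr : ∀ O : ValuationSubring E, (∀ z : Ω, algebraMap Ω E z ∈ O) → (∀ l, y l ∈ O) → r ∈ O) :
    IsIntegral (Algebra.adjoin Ω (Set.range y)) r := by
  have h := iInf_valuationSubring_superset (K := E) (s := Algebra.adjoin Ω (Set.range y))
  have h1 : r ∈ (integralClosure (Subring.closure
      (Algebra.adjoin Ω (Set.range y) : Set E)) E).toSubring := by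
    rw [← h, Subring.mem_iInf]
    exact fun V => hr V.1 (fun z => V.2 (Subalgebra.algebraMap_mem _ z))
      fun l => V.2 (Algebra.subset_adjoin ⟨l, rfl⟩)
  have h2 : Subring.closure (Algebra.adjoin Ω (Set.range y) : Set E) =
      (Algebra.adjoin Ω (Set.range y)).toSubring :=
    Subring.closure_eq (Algebra.adjoin Ω (Set.range y)).toSubring
  rw [h2] at h1
  exact h1

omit [IsAlgClosed Ω] in
theorem bl_Bd {j : ι} {f : E} (h : f ∈ G.C j) : ∃ c, f ∈ DB.Bd Ω (fun l => G.X l / G.X j) c := by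
  obtain ⟨N, hN⟩ := G.homog h
  have h1 := G.div_mem_Bd (hN N le_rfl) j
  rw [mul_div_cancel_left₀ _ (pow_ne_zero N (G.X_ne j))] at h1
  exact ⟨N, h1⟩

theorem bl_one (j : ι) : ∃ δ : ℕ, ∀ (ev : G.C j →ₐ[Ω] Ω) (a μ : ℕ), ∀ w ∈ G.R a, w ≠ 0 →
    ∀ f : G.OFz ev, (f : E) = w / G.X j ^ a → f ∈ RingHom.ker (evL ev) ^ μ → μ ≤ δ * a := by
  have : CharZero Ω := charZero_of_injective_algebraMap (algebraMap ℂ Ω).injective
  obtain ⟨l, h1, h2, h3, h4, -⟩ := DB.gcd (fun l => G.X l / G.X j) (fun o => G.ι (S.gen j o))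
    (fun o => G.bl_Bd (Algebra.subset_adjoin ⟨o, rfl⟩)) (G.gen_E j) G.trdeg_E
  have h5 : Submodule.span Ω (Set.range fun l => G.X l / G.X j) ≤
      Subalgebra.toSubmodule (G.C j) := by
    refine Submodule.span_le.2 ?_
    rintro _ ⟨i, rfl⟩
    exact Algebra.subset_adjoin ⟨some i, map_div₀ G.ι _ _⟩
  refine ⟨Module.finrank (IntermediateField.adjoin Ω (Set.range l)) E ^ 2,
    fun ev a μ w hw h0 f hf hμ => ?_⟩
  have h6 : w / G.X j ^ a ≠ 0 := div_ne_zero h0 (pow_ne_zero a (G.X_ne j))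
  obtain ⟨p, hp, hd, hO⟩ := DB.kl_norm l h2.1 (DB.Bd_le_Bd _ l h3 a (G.div_mem_Bd hw j)) h6
  obtain ⟨h, k1, g, k2, k3⟩ := pow_ker hμ
  have k4 : h * ⟨_, div_mem_C hw j⟩ = g := Subtype.ext (by rw [← k3, hf]; rfl)
  have k5 := bl0 l h2.1 (G.C j) (fun i => h5 (h1 i)) (fun f hf => by
    obtain ⟨c, hc⟩ := G.bl_Bd hf
    exact DB.isIntegral_of_Bd l (DB.Bd_le_Bd _ l h3 c hc)) ev hp (f := ⟨_, div_mem_C hw j⟩)
    (bl_int l hO) (mul_div_cancel₀ _ h6).symm k1 (k4 ▸ k2)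
  refine k5.trans ((Nat.mul_le_mul_right _ hd).trans (le_of_eq ?_))
  ring

/-- Sketch: for each `j`, `DB.gcd` with `x l = X l / X j` and `w o = ι (gen j o)` (`ι (v j)` lies in
`Bd Ω x 0` or in some `Bd Ω x c`: `v_unit`, `homog`, `div_mem_Bd`; `gen_E`, `trdeg_E`) gives `l`;
`C j` is integral over `Ω [l]`; `DB.kl_norm` for `w / X j ^ a` (`div_mem_Bd`, `DB.Bd_le_Bd`; the
quotient lies in `Bd Ω l 0`-like intersection of valuation rings, so it is integral); `pow_ker`,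
`bl0`. Take `c₀ = 1 + ∑ j, δ j ^ 2`. -/
theorem bl : ∃ c₀ : ℕ, ∀ (j : ι) (ev : G.C j →ₐ[Ω] Ω) (a : ℕ), 0 < a → ∀ w ∈ G.R a,
    ∀ f : G.OFz ev, (f : E) = w / G.X j ^ a → f ∈ RingHom.ker (evL ev) ^ (c₀ * a) → w = 0 := by
  choose δ hδ using G.bl_one
  refine ⟨1 + ∑ j, δ j, fun j ev a ha w hw f hf hμ => ?_⟩
  by_contra h0
  have h1 := hδ j ev a _ w hw h0 f hf hμ
  have h2 : δ j ≤ ∑ j, δ j :=
    Finset.single_le_sum (f := δ) (fun _ _ => Nat.zero_le _) (Finset.mem_univ j)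
  have h3 := Nat.le_of_mul_le_mul_right h1 ha
  omega

end Pool.Agent.Lib.MP_bc213e_ag.DD.Geo
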