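import Pool.Agent.Lib.MP_bc213e_ag.DL.Loc

/-! The order of vanishing of a divisor of a polynomial on a finite cover of affine space. -/

namespace Pool.Agent.Lib.MP_bc213e_ag.DL

open Polynomial

section bl

variable {Ω E F Γ : Type} [Field Ω] [Field E] [Algebra Ω E] [Field F] [Algebra Ω F]
  [LinearOrderedCommGroupWithZero Γ] {φ : ℕ}

private theorem bl0_one (v : Valuation F Γ) (hΩ : ∀ c : Ω, v (algebraMap Ω F c) ≤ 1) {c : Ω}
    (hc : c ≠ 0) : v (algebraMap Ω F c) = 1 := by
  refine le_antisymm (hΩ c) ?_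
  have h : v (algebraMap Ω F c) * v (algebraMap Ω F c⁻¹) = 1 := by
    rw [← map_mul, ← map_mul, mul_inv_cancel₀ hc, map_one, map_one]
  exact h ▸ mul_le_of_le_one_right' (hΩ _)

private theorem bl0_le (v : Valuation F Γ) (hΩ : ∀ c : Ω, v (algebraMap Ω F c) ≤ 1) {t : F}
    (ht : v t ≤ 1) (P : Polynomial Ω) : v (aeval t P) ≤ 1 := by
  rw [aeval_eq_sum_range]
  refine v.map_sum_le fun i _ => ?_
  rw [Algebra.smul_def, map_mul, map_pow]
  exact mul_le_one' (hΩ _) (pow_le_one' ht _)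

private theorem bl0_sub (v : Valuation F Γ) (hΩ : ∀ c : Ω, v (algebraMap Ω F c) ≤ 1) {t : F}
    (ht : v t ≤ 1) (P : Polynomial Ω) : v (aeval t P - algebraMap Ω F (P.coeff 0)) ≤ v t := by
  have e : aeval t P - algebraMap Ω F (P.coeff 0) = t * aeval t P.divX := by
    have e1 := congrArg (aeval t) P.divX_mul_X_add
    rw [map_add, map_mul, aeval_X, aeval_C] at e1
    rw [sub_eq_iff_eq_add, mul_comm, e1]
  rw [e, map_mul]
  exact mul_le_of_le_one_right' (bl0_le v hΩ ht _)

private theorem bl0_unit (v : Valuation F Γ) (hΩ : ∀ c : Ω, v (algebraMap Ω F c) ≤ 1) {x : F}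
    {c : Ω} (hc : c ≠ 0) (h : v (x - algebraMap Ω F c) < 1) : v x = 1 := by
  have h1 := bl0_one v hΩ hc
  rw [← sub_add_cancel x (algebraMap Ω F c), v.map_add_eq_of_lt_right (h1 ▸ h), h1]

/-- Sketch: `P = X ^ r * Q` with `Q.coeff 0 ≠ 0`, `r ≤ N`
(`exists_eq_pow_rootMultiplicity_mul_and_not_dvd`), and `v (aeval t Q) = 1`. -/
theorem val_aeval_ge (v : Valuation F Γ) (hΩ : ∀ c : Ω, v (algebraMap Ω F c) ≤ 1) {t : F}
    (ht : v t < 1) {P : Polynomial Ω} (hP : P ≠ 0) {N : ℕ} (hN : P.natDegree ≤ N) :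
    v t ^ N ≤ v (aeval t P) := by
  obtain ⟨Q, e, hQ⟩ := exists_eq_pow_rootMultiplicity_mul_and_not_dvd P hP 0
  rw [C_0, sub_zero] at e hQ
  have h0 : Q ≠ 0 := fun h => hQ (h ▸ dvd_zero _)
  have h1 : P.rootMultiplicity 0 ≤ N := by
    refine le_trans ?_ hN
    conv_rhs => rw [e, natDegree_mul (pow_ne_zero _ X_ne_zero) h0, natDegree_X_pow]
    exact Nat.le_add_right _ _
  have h2 : v (aeval t Q) = 1 :=
    bl0_unit v hΩ (mt X_dvd_iff.2 hQ) ((bl0_sub v hΩ ht.le Q).trans_lt ht)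
  rw [e, map_mul, map_mul, h2, mul_one, map_pow, map_pow, aeval_X]
  exact pow_le_pow_right_of_le_one' ht.le h1

/-- The Newton polygon step. Each coefficient is congruent to a constant modulo `t`; apply
`val_aeval_ge` to the monic polynomial with these constant coefficients and to `f`. -/
theorem val_pow_le (v : Valuation F Γ) (hΩ : ∀ c : Ω, v (algebraMap Ω F c) ≤ 1) {t f : F}
    (hf : v f < 1) {P : Polynomial F} (hP : P.Monic) (h0 : P.eval f = 0) {δ : ℕ} (hδ : P.natDegree ≤ δ)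
    (hc : ∀ i, ∃ c : Ω, v (P.coeff i - algebraMap Ω F c) ≤ v t) (ht : v t < 1) :
    v f ^ δ ≤ v t := by
  choose c hc using hc
  have h1 : c P.natDegree ≠ 0 := fun h => by
    have h2 := (hc P.natDegree).trans_lt ht
    rw [h, map_zero, sub_zero, hP.coeff_natDegree, map_one] at h2
    exact lt_irrefl _ h2
  let Q : Polynomial Ω := ∑ i ∈ Finset.range (P.natDegree + 1), monomial i (c i)
  have h2 : Q ≠ 0 := fun h => h1 (by
    have h3 := congrArg (coeff · P.natDegree) h
    simpa [Q, coeff_monomial] using h3)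
  have h3 : Q.natDegree ≤ δ := natDegree_sum_le_of_forall_le _ _ fun i hi =>
    (natDegree_monomial_le _).trans ((Nat.lt_succ_iff.1 (Finset.mem_range.1 hi)).trans hδ)
  refine (val_aeval_ge v hΩ hf h2 h3).trans ?_
  have e : aeval f Q = -∑ i ∈ Finset.range (P.natDegree + 1),
      (P.coeff i - algebraMap Ω F (c i)) * f ^ i := by
    rw [eval_eq_sum_range] at h0
    simp only [Q, map_sum, aeval_monomial, sub_mul, Finset.sum_sub_distrib, h0, zero_sub, neg_neg]
  rw [e, Valuation.map_neg]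
  refine v.map_sum_le fun i _ => ?_
  rw [map_mul, map_pow]
  exact (mul_le_of_le_one_right' (pow_le_one' hf.le _)).trans (hc i)

/-- A line through `z` on which `p` does not vanish. -/
theorem exists_line [Infinite Ω] {p : MvPolynomial (Fin φ) Ω} (hp : p ≠ 0) (z : Fin φ → Ω) :
    ∃ w : Fin φ → Ω, MvPolynomial.aeval (fun i => C (z i) + C (w i) * X) p ≠ (0 : Polynomial Ω) ∧
      (MvPolynomial.aeval (fun i => C (z i) + C (w i) * X) p : Polynomial Ω).natDegree ≤
        p.totalDegree := by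
  obtain ⟨y, hy⟩ : ∃ y : Fin φ → Ω, MvPolynomial.eval y p ≠ 0 := by
    by_contra h
    exact hp (MvPolynomial.funext fun y => by simpa using not_exists.1 h y)
  refine ⟨y - z, fun h => hy ?_, ?_⟩
  · have h1 := congrArg (aeval (1 : Ω)) h
    rw [← AlgHom.comp_apply, MvPolynomial.comp_aeval, map_zero] at h1
    simpa using h1
  · refine (MvPolynomial.aeval_natDegree_le p le_rfl _ (n := 1) fun i => ?_).trans_eq (mul_one _)
    rw [add_comm]
    exact natDegree_linear_le

private theorem bl0_core {B D : Type} [CommRing B] [CommRing D] [IsDomain D] [Algebra Ω B]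
    [Algebra Ω D] [Algebra B D] [IsScalarTower Ω B D] [FaithfulSMul B D] [Algebra.IsIntegral B D]
    [IsIntegrallyClosed B] (lam : B →ₐ[Ω] Polynomial Ω) {b₀ : B} (hb : lam b₀ = X) (n : Ideal D)
    [n.IsPrime] (hn : ∀ b, (lam b).coeff 0 = 0 → algebraMap B D b ∈ n) :
    ∃ (F : Type) (_ : Field F) (_ : Algebra Ω F) (V : ValuationSubring F) (ρ : D →ₐ[Ω] F) (t : F),
      t ≠ 0 ∧ V.valuation t < 1 ∧ (∀ x, V.valuation (ρ x) ≤ 1) ∧
      (∀ x ∈ n, V.valuation (ρ x) < 1) ∧ ∀ b, ρ (algebraMap B D b) = aeval t (lam b) := by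
  have := RingHom.ker_isPrime lam
  obtain ⟨q, hq, _, hl⟩ := n.exists_ideal_le_liesOver_of_le (p := RingHom.ker lam)
    (q := n.under B) fun b h => hn b (by rw [RingHom.mem_ker.1 h, coeff_zero])
  let ρ : D →ₐ[Ω] q.ResidueField := IsScalarTower.toAlgHom Ω D q.ResidueField
  have h1 : ∀ x, ρ x = 0 ↔ x ∈ q := fun x => Ideal.algebraMap_residueField_eq_zero
  have h2 : ∀ b, ρ (algebraMap B D b) = 0 ↔ lam b = 0 := fun b => by
    rw [h1, ← RingHom.mem_ker, hl.over]
    rfl
  have h3 : n.map (ρ : D →+* q.ResidueField).rangeRestrict ≠ ⊤ := by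
    refine (Ideal.map_isPrime_of_surjective (f := (ρ : D →+* q.ResidueField).rangeRestrict)
      (RingHom.rangeRestrict_surjective _) ?_).ne_top
    intro x hx
    exact hq ((h1 x).1 (congrArg Subtype.val (RingHom.mem_ker.1 hx)))
  obtain ⟨V, h4, h5⟩ := Ideal.image_subset_nonunits_valuationSubring _ h3
  have h6 : ∀ x ∈ n, V.valuation (ρ x) < 1 := fun x hx =>
    V.mem_nonunits_iff.1 (h5 ⟨_, Ideal.mem_map_of_mem _ hx, rfl⟩)
  refine ⟨q.ResidueField, inferInstance, inferInstance, V, ρ, ρ (algebraMap B D b₀),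
    fun h => X_ne_zero (hb ▸ (h2 _).1 h), h6 _ (hn _ (by rw [hb, coeff_X_zero])),
    fun x => (V.valuation_le_one_iff _).2 (h4 ⟨x, rfl⟩), h6, fun b => ?_⟩
  have h7 := (h2 (b - aeval b₀ (lam b))).2 (by
    rw [map_sub, ← aeval_algHom_apply, hb, aeval_X_left_apply, sub_self])
  rw [map_sub, map_sub, sub_eq_zero] at h7
  rw [h7, aeval_algHom_apply, aeval_algebraMap_apply]

open scoped IntermediateField.algebraAdjoinAdjoin in
/-- Sketch: `A = Algebra.adjoin Ω (range l)` is integrally closed (`hl.aevalEquiv`), `D` is the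
integral closure of `A` in `E`, `n'` a prime of `D` over `ker ev`, `z i = ev (l i)`. If
`eval z p ≠ 0` then `μ = 0`. Otherwise take the line `λ : A → Polynomial Ω` of `exists_line` (`w i ≠ 0` for
some `i`), `q₀ = ker λ ≤ n' ∩ A`, and `q' ≤ n'` over `q₀` (`Ideal.exists_ideal_le_liesOver_of_le`).
Let `F = q'.ResidueField`, `ρ : D → F`, `t = ρ ((l i - z i) / w i) ≠ 0`, so `ρ a = aeval t (λ a)` on
`A`, and let `V` be a valuation subring of `F` that contains the range of `ρ`, with `ρ n'` in the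
nonunits (`Ideal.image_subset_nonunits_valuationSubring`). For `s ∈ ker ev`, `val_pow_le` with the
minimal polynomial over `A` (`minpoly.isIntegrallyClosed_eq_field_fractions`, degree at most `δ`)
gives `v (ρ s) ^ δ ≤ v t`, so `v (ρ s) ^ δ ≤ v t ^ μ` on `ker ev ^ μ`; `v (ρ h) = 1`. Hence
`v t ^ (N * δ) ≤ v (ρ p) ^ δ ≤ v t ^ μ`. -/
theorem bl0 [IsAlgClosed Ω] (l : Fin φ → E) (hl : AlgebraicIndependent Ω l)
    [FiniteDimensional (IntermediateField.adjoin Ω (Set.range l)) E] (A : Subalgebra Ω E)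
    (hA : ∀ i, l i ∈ A) (hA' : ∀ f ∈ A, IsIntegral (Algebra.adjoin Ω (Set.range l)) f)
    (ev : A →ₐ[Ω] Ω) {p : MvPolynomial (Fin φ) Ω} (hp : p ≠ 0) {μ : ℕ} {f h : A} {g : E}
    (hg : IsIntegral (Algebra.adjoin Ω (Set.range l)) g) (e : MvPolynomial.aeval l p = f * g)
    (hh : ev h ≠ 0) (hf : h * f ∈ RingHom.ker ev ^ μ) :
    μ ≤ p.totalDegree * Module.finrank (IntermediateField.adjoin Ω (Set.range l)) E := by
  rcases Nat.eq_zero_or_pos μ with rfl | hμ
  · exact Nat.zero_le _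
  have := IsIntegrallyClosed.of_equiv hl.aevalEquiv.toRingEquiv
  set B := Algebra.adjoin Ω (Set.range l) with hB
  set δ := Module.finrank (IntermediateField.adjoin Ω (Set.range l)) E with hδ
  have hBA : B ≤ A := Algebra.adjoin_le (Set.range_subset_iff.2 hA)
  let ι : A →+* integralClosure B E :=
    (A.val : A →+* E).codRestrict (integralClosure B E) fun x => hA' x x.2
  have hι : ∀ b : B, ι (Subalgebra.inclusion hBA b) = algebraMap B _ b := fun _ => rfl
  have hi : ι.IsIntegral := RingHom.IsIntegral.tower_top (Subalgebra.inclusion hBA : B →+* A) ι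
    (integralClosure.AlgebraIsIntegral (R := B) (A := E)).isIntegral
  obtain ⟨⟨n, hn⟩, en⟩ := hi.comap_surjective
    (fun x y h => Subtype.ext (by exact congrArg (fun z : integralClosure B E => (z : E)) h))
    ⟨_, RingHom.ker_isPrime ev⟩
  have hm : ∀ x, ι x ∈ n ↔ ev x = 0 := fun x => SetLike.ext_iff.1 (congrArg (·.asIdeal) en) x
  obtain ⟨w, hw, hw'⟩ := exists_line hp fun i => ev ⟨l i, hA i⟩
  let lam : B →ₐ[Ω] Polynomial Ω := (MvPolynomial.aeval
    fun i => C (ev ⟨l i, hA i⟩) + C (w i) * X).comp hl.aevalEquiv.symm.toAlgHom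
  have hlam : ∀ r, lam (hl.aevalEquiv r) =
      MvPolynomial.aeval (fun i => C (ev ⟨l i, hA i⟩) + C (w i) * X) r := fun r => by simp [lam]
  have h0 : ∀ b, (lam b).coeff 0 = ev (Subalgebra.inclusion hBA b) := fun b => by
    obtain ⟨r, rfl⟩ := hl.aevalEquiv.surjective b
    have e1 : (aeval (0 : Ω)).comp (MvPolynomial.aeval fun i => C (ev ⟨l i, hA i⟩) + C (w i) * X) =
        ev.comp ((Subalgebra.inclusion hBA).comp hl.aevalEquiv.toAlgHom) := by
      ext i
      have e2 : Subalgebra.inclusion hBA (hl.aevalEquiv (MvPolynomial.X i)) = ⟨l i, hA i⟩ :=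
        Subtype.ext (by simp)
      simp [e2]
    rw [hlam, coeff_zero_eq_aeval_zero]
    exact DFunLike.congr_fun e1 r
  have e' : algebraMap B (integralClosure B E) (hl.aevalEquiv p) = ι f * ⟨g, hg⟩ :=
    Subtype.ext ((hl.algebraMap_aevalEquiv p).trans e)
  have hf0 : ev f = 0 := by
    have h1 := RingHom.mem_ker.1 (Ideal.pow_le_self hμ.ne' hf)
    rw [map_mul] at h1
    exact (mul_eq_zero.1 h1).resolve_left hh
  obtain ⟨i, hi⟩ : ∃ i, w i ≠ 0 := by
    by_contra h1
    have h2 : w = 0 := funext fun i => not_not.1 (not_exists.1 h1 i)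
    have h3 := (hm _).1 ((hι _).trans e' ▸ n.mul_mem_right _ ((hm f).2 hf0))
    rw [← h0, hlam] at h3
    rw [h2] at hw h3
    refine hw ((eq_C_of_natDegree_eq_zero (Nat.le_zero.1 ?_)).trans (by rw [h3, C_0]))
    exact MvPolynomial.aeval_natDegree_le p le_rfl _ (n := 0) fun i => by simp
  have : FaithfulSMul B (integralClosure B E) := (faithfulSMul_iff_algebraMap_injective _ _).2
    fun x y h => Subtype.ext (by exact congrArg (fun z : integralClosure B E => (z : E)) h)
  obtain ⟨F, _, _, V, ρ, t, t0, t1, v1, v2, hρ⟩ := bl0_core lam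
    (b₀ := hl.aevalEquiv (MvPolynomial.C (w i)⁻¹ * (MvPolynomial.X i -
      MvPolynomial.C (ev ⟨l i, hA i⟩)))) (by
      rw [hlam]
      simp [← mul_assoc, ← C_mul, hi]) n fun b hb => hι b ▸ (hm _).2 (h0 b ▸ hb)
  have hΩ : ∀ c : Ω, V.valuation (algebraMap Ω F c) ≤ 1 := fun c => ρ.commutes c ▸ v1 _
  have k1 : ∀ s, ev s = 0 → V.valuation (ρ (ι s)) ^ δ ≤ V.valuation t := fun s hs => by
    have m1 := minpoly.monic (hA' s s.2)
    refine val_pow_le V.valuation hΩ (v2 _ ((hm s).2 hs))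
      (m1.map ((ρ : integralClosure B E →+* F).comp (algebraMap B _))) ?_ ?_ (fun j => ?_) t1
    · have h1 : aeval (ι s) (minpoly B (s : E)) = 0 :=
        Subtype.ext ((aeval_subalgebra_coe _ _ (ι s)).trans (minpoly.aeval B (s : E)))
      rw [eval_map, ← RingHom.coe_coe ρ, ← hom_eval₂, ← aeval_def, h1, map_zero]
    · rw [m1.natDegree_map, ← m1.natDegree_map (algebraMap B
        (IntermediateField.adjoin Ω (Set.range l))),
        ← minpoly.isIntegrallyClosed_eq_field_fractions' _ (hA' s s.2)]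
      exact minpoly.natDegree_le _
    · rw [coeff_map, RingHom.comp_apply, RingHom.coe_coe, hρ]
      exact ⟨_, bl0_sub _ hΩ t1.le _⟩
  have k2 : ∀ (m : ℕ), ∀ s ∈ RingHom.ker ev ^ m,
      V.valuation (ρ (ι s)) ^ δ ≤ V.valuation t ^ m := fun m => by
    induction m with
    | zero => exact fun s _ => (pow_le_one' (v1 _) _).trans_eq (pow_zero _).symm
    | succ m ih =>
      intro s hs
      rw [pow_succ] at hs
      refine Submodule.mul_induction_on hs (fun x hx y hy => ?_) fun x y hx hy => ?_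
      · rw [map_mul, map_mul, map_mul, mul_pow, pow_succ]
        exact mul_le_mul' (ih x hx) (k1 y hy)
      · rw [map_add, map_add]
        rcases le_max_iff.1 (V.valuation.map_add (ρ (ι x)) (ρ (ι y))) with h1 | h1
        exacts [(pow_le_pow_left' h1 _).trans hx, (pow_le_pow_left' h1 _).trans hy]
  have k3 : V.valuation (ρ (ι h)) = 1 := by
    refine bl0_unit _ hΩ hh ?_
    have h1 := v2 _ ((hm (h - algebraMap Ω A (ev h))).2 (by simp))
    rwa [map_sub, map_sub, show ι (algebraMap Ω A (ev h)) = algebraMap Ω _ (ev h) from rfl,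
      ρ.commutes] at h1
  have k4 := val_aeval_ge V.valuation hΩ t1 hw hw'
  rw [← hlam, ← hρ, e', map_mul, map_mul] at k4
  have k5 := k2 μ _ hf
  rw [map_mul, map_mul, map_mul, k3, one_mul] at k5
  rw [← pow_le_pow_iff_right_of_lt_one₀ (V.valuation.pos_iff.2 t0) t1, pow_mul]
  exact (pow_le_pow_left' (k4.trans (mul_le_of_le_one_right' (v1 _))) _).trans k5

end bl

end Pool.Agent.Lib.MP_bc213e_ag.DL
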