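import Pool.Agent.Lib.MP_bc213e_ag.DL.Twd

/-! Etale coordinates at a point of `W`. -/

namespace Pool.Agent.Lib.MP_bc213e_ag.DD.Su

open Pool.Agent.Lib.MP_bc213e_ag.Hyp Pool.Agent.Lib.MP_bc213e_ag.DL

variable {K M ι : Type} [Field K] [Algebra ℂ K] [Field M] [Algebra ℂ M] [Algebra K M]
  [IsScalarTower ℂ K M] {n : ℕ} (S : Su K M ι n)

/-- The chart ring of `X` inside the chart ring of `W`. -/
noncomputable def inB (j : ι) : chart S.x j →ₐ[ℂ] S.B j :=
  ((IsScalarTower.toAlgHom ℂ K M).comp (chart S.x j).val).codRestrict (S.B j)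
    fun r => S.map_mem_B r.2

theorem coe_inB (j : ι) (r : chart S.x j) : (S.inB j r : M) = algebraMap K M r := rfl

theorem gen_some (j l : ι) :
    S.gen j (some l) = S.inB j ⟨(S.x l : K) / S.x j, Algebra.subset_adjoin ⟨l, rfl⟩⟩ :=
  (map_div₀ (algebraMap K M) _ _).symm

/-- The coordinates on `W` defined by functions on `X`. -/
noncomputable def crd (j : ι) (ζ : Fin n → chart S.x j) : Option (Fin n) → M :=
  fun o => o.elim (S.v j) fun a => algebraMap K M (ζ a)

theorem crd_mem (j : ι) (ζ : Fin n → chart S.x j) (o : Option (Fin n)) : S.crd j ζ o ∈ S.B j := by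
  cases o with
  | none => exact S.v_mem j
  | some a => exact S.map_mem_B (ζ a).2

theorem coo_of_cot [Fintype ι] {Ω : Type} [Field Ω] [Algebra ℂ Ω] (j : ι) (e : S.B j →ₐ[ℂ] Ω)
    (ζ : Fin n → chart S.x j) (s : chart S.x j) (hs : e (S.inB j s) ≠ 0)
    (cot : ∀ f, s • KaehlerDifferential.D ℂ (chart S.x j) f ∈ Submodule.span (chart S.x j)
      (Set.range fun l => KaehlerDifferential.D ℂ (chart S.x j) (ζ l))) :
    ∃ D, Coo (loc (S.B j) e) (S.crd j ζ) D := by
  have key : ∀ f, ∃ a : Fin n → chart S.x j, ∀ (R N : Type) [CommRing R] [Algebra ℂ R]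
      [AddCommGroup N] [Module R N] (β : chart S.x j →ₐ[ℂ] R) (δ : chart S.x j →+ N), TwD β δ →
      β s • δ f = ∑ l, β (a l) • δ (ζ l) := fun f => by
    obtain ⟨a, ha⟩ := (Submodule.mem_span_range_iff_exists_fun _).1 (cot f)
    refine ⟨a, fun R N _ _ _ _ β δ h => ?_⟩
    have e := h.kaehler (fun o : Option (Fin n) => o.elim (-s) a) (fun o => o.elim f ζ) (by
      rw [Fintype.sum_option]
      exact neg_add_eq_zero.2 ha.symm ▸ congrArg (· + _) (neg_smul _ _))
    rw [Fintype.sum_option] at e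
    refine neg_add_eq_zero.1 (Eq.trans ?_ e)
    change _ = β (-s) • δ f + _
    rw [map_neg, neg_smul]
    rfl
  have et : ∀ (R N : Type) [CommRing R] [Algebra ℂ R] [AddCommGroup N] [Module R N]
      (β : S.B j →ₐ[ℂ] R) (δ : S.B j →+ N), TwD β δ → IsUnit (β (S.inB j s)) →
      (∀ o, δ ⟨_, S.crd_mem j ζ o⟩ = 0) → ∀ f, δ f = 0 := by
    intro R N _ _ _ _ β δ hδ hu h0 f
    have hB : S.B j ≤ hδ.zs.map (S.B j).val := by
      refine Algebra.adjoin_le ?_
      rintro _ ⟨o, rfl⟩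
      cases o with
      | none => exact ⟨_, h0 none, rfl⟩
      | some l =>
        obtain ⟨a, ha⟩ := key ⟨(S.x l : K) / S.x j, Algebra.subset_adjoin ⟨l, rfl⟩⟩
        have h2 : β (S.inB j s) • δ (S.inB j _) = ∑ b, β (S.inB j (a b)) • δ (S.inB j (ζ b)) :=
          ha R N _ _ (hδ.comp (S.inB j))
        have h3 : ∀ b, δ (S.inB j (ζ b)) = 0 := fun b => h0 (some b)
        simp only [h3, smul_zero, Finset.sum_const_zero] at h2
        exact ⟨_, hu.smul_eq_zero.1 h2, (S.gen_some j l).symm⟩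
    obtain ⟨z, hz, e⟩ := hB f.2
    rwa [← show z = f from Subtype.ext e]
  have tw : ∀ δ : Derivation ℂ M M, TwD (AlgHom.id ℂ M) δ.toLinearMap.toAddMonoidHom :=
    fun δ => ⟨δ.leibniz, δ.map_algebraMap⟩
  obtain ⟨D, hD, -⟩ := S.frame_ref.exchange (S.crd j ζ) fun h0 => by
    obtain ⟨c, hc, h1⟩ := Matrix.exists_vecMul_eq_zero_iff.2 h0
    have h2 : ∀ f, (∑ a, c a • S.Dref a) f = ∑ a, c a * S.Dref a f := fun f => by
      have := congrFun (map_sum (Derivation.coeFnAddMonoidHom (R := ℂ) (A := M) (M := M))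
        (fun a => c a • S.Dref a) Finset.univ) f
      rw [Finset.sum_apply] at this
      exact this
    have h3 : ∀ f : S.B j, (∑ a, c a • S.Dref a) (f : M) = 0 :=
      et M M _ _ ((tw (∑ a, c a • S.Dref a)).comp (S.B j).val) (coe_ne_zero hs).isUnit
        fun o => (h2 _).trans (congrFun h1 o)
    have := S.frac_B j
    refine hc (funext fun a => ?_)
    obtain ⟨p, q, hq, e⟩ := IsFractionRing.div_surjective (A := S.B j) (S.tb a)
    have hq' : (q : M) ≠ 0 := fun h => nonZeroDivisors.ne_zero hq (Subtype.ext h)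
    have h4 := (tw (∑ a, c a • S.Dref a)).of_mul (f := S.tb a) hq'.isUnit (h3 q) (by
      rw [← e]
      exact (congrArg _ (mul_div_cancel₀ (p : M) hq')).trans (h3 p))
    have h5 := (h2 _).symm.trans h4
    simpa [S.frame_ref.dual] using h5
  have hm : ∀ o o', D o (S.crd j ζ o') ∈ loc (S.B j) e := fun o o' => by
    rw [hD.dual]
    split_ifs
    exacts [one_mem _, zero_mem _]
  refine ⟨D, hD, fun o => le_loc e (S.crd_mem j ζ o), fun o f hf => ?_, ?_⟩
  · refine der_mem (s := Set.range (S.gen j)) le_rfl (fun _ h => Algebra.subset_adjoin h) (D o)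
      ?_ hf
    rintro _ ⟨o', rfl⟩
    cases o' with
    | none => exact hm o none
    | some l =>
      obtain ⟨a, ha⟩ := key ⟨(S.x l : K) / S.x j, Algebra.subset_adjoin ⟨l, rfl⟩⟩
      have h2 : (S.inB j s : M) * D o (S.inB j _) =
          ∑ b, (S.inB j (a b) : M) * D o (S.inB j (ζ b)) :=
        ha M M _ _ (((tw (D o)).comp (S.B j).val).comp (S.inB j))
      rw [S.gen_some, ← inv_mul_cancel_left₀ (coe_ne_zero hs) (D o _), h2]
      exact mul_mem (inv_mem' hs) (sum_mem fun b _ =>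
        mul_mem (le_loc e (S.inB j (a b)).2) (hm o (some b)))
  · intro R N _ _ _ _ β δ hδ h0
    have hB := et R N _ _ (hδ.comp (Subalgebra.inclusion (le_loc e)))
      ((isUnit_of_evL (f := ⟨_, le_loc e (S.inB j s).2⟩)
        (by rwa [evL_eq (g := S.inB j s) rfl])).map β) h0
    ext f
    obtain ⟨h, h1, h2⟩ := f.2
    exact hδ.of_mul (u := ⟨h, le_loc e h.2⟩) (isUnit_of_evL (by rwa [evL_eq (g := h) rfl]))
      (hB h) (hB ⟨_, h2⟩)

end Pool.Agent.Lib.MP_bc213e_ag.DD.Su
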