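import Pool.Agent.Lib.MP_bc213e_ag.DL.Twd

/-! Jets and powers of the maximal ideal of a smooth point. -/

namespace Pool.Agent.Lib.MP_bc213e_ag.DL

open Pool.Agent.Lib.MP_bc213e_ag.DA Pool.Agent.Lib.MP_bc213e_ag.Jet Pool.Agent.Lib.MP_bc213e_ag.DD
open scoped TensorProduct

noncomputable section

section jet

variable {k R κ : Type} [Field k] [CommRing R] [Algebra k R] [Fintype κ] {m : Ideal R}
  {D : κ → Derivation k R R} {X : κ → R}

theorem euler_pow (hX : ∀ c, X c ∈ m) (h : ∀ f ∈ m, f - ∑ c, X c * D c f ∈ m ^ 2) (μ : ℕ) {f : R}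
    (hf : f ∈ m ^ μ) : (μ : R) * f - ∑ c, X c * D c f ∈ m ^ (μ + 1) := by
  induction μ generalizing f with
  | zero =>
    rw [Nat.cast_zero, zero_mul, zero_sub, zero_add, pow_one]
    exact neg_mem (Ideal.sum_mem _ fun c _ => Ideal.mul_mem_right _ _ (hX c))
  | succ μ ih =>
    rw [pow_succ] at hf
    refine Submodule.mul_induction_on hf (fun s hs t ht => ?_) fun s t hs ht => ?_
    · have e : ((μ + 1 : ℕ) : R) * (s * t) - ∑ c, X c * D c (s * t) =
          s * (t - ∑ c, X c * D c t) + ((μ : R) * s - ∑ c, X c * D c s) * t := by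
        simp only [Derivation.leibniz, smul_eq_mul, mul_add, Finset.sum_add_distrib, mul_sub,
          sub_mul, Finset.mul_sum, Finset.sum_mul, Nat.cast_succ]
        rw [Finset.sum_congr rfl fun c _ => mul_left_comm (X c) s (D c t),
          Finset.sum_congr rfl fun c _ => show X c * (t * D c s) = X c * D c s * t by ring]
        ring
      rw [e]
      refine add_mem ?_ ?_
      · rw [add_assoc, pow_add]
        exact Ideal.mul_mem_mul hs (h t ht)
      · rw [pow_succ]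
        exact Ideal.mul_mem_mul (ih hs) ht
    · have h1 := add_mem hs ht
      simp only [map_add, mul_add, Finset.sum_add_distrib]
      rwa [add_sub_add_comm]

theorem jet_le_pow [CharZero k] (hX : ∀ c, X c ∈ m) (h : ∀ f ∈ m, f - ∑ c, X c * D c f ∈ m ^ 2)
    (μ : ℕ) : Jet (Set.range D) m μ ≤ m ^ μ := by
  induction μ with
  | zero => rw [pow_zero, Ideal.one_eq_top]; exact le_top
  | succ μ ih =>
    intro f hf
    rcases Nat.eq_zero_or_pos μ with rfl | hμ
    · rw [zero_add, pow_one]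
      exact hf.1
    have h1 : ∑ c, X c * D c f ∈ m ^ (μ + 1) := Ideal.sum_mem _ fun c _ => by
      rw [pow_succ']
      exact Ideal.mul_mem_mul (hX c) (ih (hf.2.2 _ ⟨c, rfl⟩))
    have h2 := add_mem (euler_pow hX h μ (ih hf.2.1)) h1
    rw [sub_add_cancel] at h2
    have h3 := Ideal.mul_mem_left _ (algebraMap k R (μ : k)⁻¹) h2
    rwa [← mul_assoc, ← map_natCast (algebraMap k R), ← map_mul,
      inv_mul_cancel₀ (Nat.cast_ne_zero.2 hμ.ne'), map_one, one_mul] at h3

theorem jet_of_ord [DecidableEq κ] {R' : Type} [CommRing R'] [Algebra ℚ R'] (hD : Comm D)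
    (ε : R →+* R') {μ : ℕ} {f : R} (h : tay hD ε f ∈ Ord κ R' μ) :
    f ∈ Jet (Set.range D) (RingHom.ker ε) μ := by
  induction μ generalizing f with
  | zero => trivial
  | succ μ ih =>
    refine mem_Jet_succ.2 ⟨?_, ?_⟩
    · rw [RingHom.mem_ker, ← constantCoeff_tay hD, ← MvPowerSeries.coeff_zero_eq_constantCoeff_apply]
      exact mem_Ord.1 h 0 (by simp)
    · rintro _ ⟨c, rfl⟩
      refine ih (mem_Ord.2 fun β hβ => ?_)
      rw [← pderiv_tay, MvPowerSeries.coeff_pderiv, mem_Ord.1 h _ (by simpa using hβ), zero_mul]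

theorem Jet_comap {k k' T T' : Type} [CommRing k] [CommRing T] [Algebra k T] [CommRing k']
    [CommRing T'] [Algebra k' T'] {𝒟 : Set (Derivation k T T)} {I : Ideal T}
    {𝒟' : Set (Derivation k' T' T')} {I' : Ideal T'} (φ : T → T')
    (h : ∀ D ∈ 𝒟, ∃ D' ∈ 𝒟', ∀ s, D' (φ s) = φ (D s)) (hI : ∀ s, φ s ∈ I' → s ∈ I) {j : ℕ} {s : T}
    (hs : φ s ∈ Jet 𝒟' I' j) : s ∈ Jet 𝒟 I j := by
  induction j generalizing s with
  | zero => trivial
  | succ j ih =>
    refine mem_Jet_succ.2 ⟨hI s hs.1, fun D hD => ih ?_⟩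
    obtain ⟨D', hD', e⟩ := h D hD
    rw [← e]
    exact hs.2.2 D' hD'

end jet

section eul

variable {Ω A R κ : Type} [Field Ω] [Algebra ℂ Ω] [CommRing A] [Algebra ℂ A] [CommRing R]
  [Algebra ℂ R] [Algebra Ω R] [IsScalarTower ℂ Ω R] [Fintype κ]

/-- The error term of the first order Taylor formula. -/
def eul (ε : R →ₐ[Ω] Ω) (β : A →ₐ[ℂ] R) (d : κ → A →+ R) (X : κ → R) :
    A →+ R ⧸ RingHom.ker ε ^ 2 where
  toFun := fun f => Ideal.Quotient.mk _ (β f - algebraMap Ω R (ε (β f)) - ∑ c, X c * d c f)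
  map_zero' := by simp
  map_add' := fun f g => by
    rw [← map_add]
    congr 1
    simp only [map_add, mul_add, Finset.sum_add_distrib]
    ring

variable {ε : R →ₐ[Ω] Ω} {β : A →ₐ[ℂ] R} {d : κ → A →+ R} {X : κ → R}

omit [Algebra ℂ Ω] [IsScalarTower ℂ Ω R] in
theorem eul_eq_zero {f : A} : eul ε β d X f = 0 ↔
    β f - algebraMap Ω R (ε (β f)) - ∑ c, X c * d c f ∈ RingHom.ker ε ^ 2 :=
  Ideal.Quotient.eq_zero_iff_mem

omit [Algebra ℂ Ω] [Algebra ℂ R] [IsScalarTower ℂ Ω R] in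
theorem sub_mem_ker (ε : R →ₐ[Ω] Ω) (r : R) : r - algebraMap Ω R (ε r) ∈ RingHom.ker ε := by
  rw [RingHom.mem_ker, map_sub, ε.commutes]
  exact sub_self _

theorem eul_twd (hd : ∀ c, TwD β (d c)) : TwD β (eul ε β d X) := by
  refine ⟨fun f g => ?_, fun z => eul_eq_zero.2 ?_⟩
  · have h1 := Ideal.mul_mem_mul (sub_mem_ker ε (β f)) (sub_mem_ker ε (β g))
    rw [← pow_two] at h1
    refine (Ideal.Quotient.eq (I := RingHom.ker ε ^ 2) (y :=
      β f * (β g - algebraMap Ω R (ε (β g)) - ∑ c, X c * d c g) +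
      β g * (β f - algebraMap Ω R (ε (β f)) - ∑ c, X c * d c f))).2 ?_
    convert neg_mem h1 using 1
    simp only [fun c => (hd c).mul f g, map_mul, smul_eq_mul, mul_add, Finset.sum_add_distrib,
      mul_sub, Finset.mul_sum]
    rw [Finset.sum_congr rfl fun c _ => mul_left_comm (X c) (β f) (d c g),
      Finset.sum_congr rfl fun c _ => mul_left_comm (X c) (β g) (d c f)]
    ring
  · rw [β.commutes, IsScalarTower.algebraMap_apply ℂ Ω R, ε.commutes]
    simp [fun c => (hd c).const z]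

theorem twd_der (D : Derivation Ω R R) : TwD (AlgHom.id ℂ R) (D : R →ₗ[Ω] R).toAddMonoidHom :=
  ⟨D.leibniz, fun c => by
    rw [IsScalarTower.algebraMap_apply ℂ Ω R]
    exact D.map_algebraMap _⟩

/-- A twisted derivation of a local ring is determined by its values on generators. -/
theorem twd_loc {E S N : Type} [Field E] [Algebra ℂ E] [Algebra Ω E] [IsScalarTower ℂ Ω E]
    [CommRing S] [Algebra ℂ S] [AddCommGroup N] [Module S N] {C : Subalgebra Ω E}
    {ev : C →ₐ[Ω] Ω} {s : Set E} (hC : C = Algebra.adjoin Ω s) {β : loc C ev →ₐ[ℂ] S}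
    {δ : loc C ev →+ N} (h : TwD β δ) (h0 : ∀ r, δ (algebraMap Ω _ r) = 0)
    (h1 : ∀ f : loc C ev, (f : E) ∈ s → δ f = 0) (f : loc C ev) : δ f = 0 := by
  have h2 : ∀ g (hg : g ∈ Algebra.adjoin Ω s), δ ⟨g, le_loc ev (hC.ge hg)⟩ = 0 := fun g hg => by
    induction hg using Algebra.adjoin_induction with
    | mem x hx => exact h1 _ hx
    | algebraMap r => exact h0 r
    | add x y _ _ hx hy => exact h.zs.add_mem hx hy
    | mul x y _ _ hx hy => exact h.zs.mul_mem hx hy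
  obtain ⟨g, g1, g2⟩ := f.2
  exact h.of_mul (isUnit_of_evL (by rwa [evL_eq (g := g) rfl])) (h2 g (hC.le g.2))
    (h2 _ (hC.le g2))

theorem euler_loc {E : Type} [Field E] [Algebra ℂ E] [Algebra Ω E] [IsScalarTower ℂ Ω E]
    {C : Subalgebra Ω E} {ev : C →ₐ[Ω] Ω} {s : Set E} (hC : C = Algebra.adjoin Ω s)
    {D : κ → Derivation Ω (loc C ev) (loc C ev)} {X : κ → loc C ev}
    (h : ∀ f : loc C ev, (f : E) ∈ s →
      f - algebraMap Ω _ (evL ev f) - ∑ c, X c * D c f ∈ RingHom.ker (evL ev) ^ 2) :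
    ∀ f ∈ RingHom.ker (evL ev), f - ∑ c, X c * D c f ∈ RingHom.ker (evL ev) ^ 2 := by
  intro f hf
  have h1 : f - algebraMap Ω _ (evL ev f) - ∑ c, X c * D c f ∈ RingHom.ker (evL ev) ^ 2 :=
    eul_eq_zero.1 (twd_loc hC (eul_twd (ε := evL ev) (X := X) fun c => twd_der (D c))
      (fun r => eul_eq_zero.2 (by simp)) (fun f hf => eul_eq_zero.2 (h f hf)) f)
  rwa [RingHom.mem_ker.1 hf, map_zero, sub_zero] at h1

variable {M : Type} [Field M] [Algebra ℂ M] [DecidableEq κ] {O : Subalgebra ℂ M} {T : κ → M}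
  {D : κ → Derivation ℂ M M}

theorem euler_coo (h : Coo O T D) (ε : R →ₐ[Ω] Ω) (β : O →ₐ[ℂ] R) (f : O) :
    β f - algebraMap Ω R (ε (β f)) -
      ∑ c, (β ⟨T c, h.mem c⟩ - algebraMap Ω R (ε (β ⟨T c, h.mem c⟩))) *
        β (res (D c) O (h.pres c) f) ∈ RingHom.ker ε ^ 2 := by
  let d : κ → O →+ R := fun c =>
    (β : O →+ R).comp (res (D c) O (h.pres c) : O →ₗ[ℂ] O).toAddMonoidHom
  have hd : ∀ c f, d c f = β (res (D c) O (h.pres c) f) := fun _ _ => rfl
  have h1 : ∀ c, TwD β (d c) := fun c => ⟨fun f g => by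
    simp only [hd, Derivation.leibniz, smul_eq_mul, map_add, map_mul], fun z => by
    rw [hd, Derivation.map_algebraMap, map_zero]⟩
  have h2 := h.et R _ β _ (eul_twd (ε := ε)
    (X := fun c => β ⟨T c, h.mem c⟩ - algebraMap Ω R (ε (β ⟨T c, h.mem c⟩))) h1) fun c => by
      have h3 : ∀ c', d c' ⟨T c, h.mem c⟩ = if c' = c then 1 else 0 := fun c' => by
        rw [hd, show res (D c') O (h.pres c') ⟨T c, h.mem c⟩ = if c' = c then 1 else 0 from
          Subtype.ext (by rw [coe_res, h.dual]; split_ifs <;> rfl)]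
        split_ifs
        · exact map_one β
        · exact map_zero β
      rw [eul_eq_zero]
      simp [h3]
  exact eul_eq_zero.1 (DFunLike.congr_fun h2 f)

theorem jet_tensor (h : Coo O T D) (e : O →ₐ[ℂ] Ω) (μ : ℕ) :
    Jet (Set.range fun c => rder (res (D c) O (h.pres c))) (RingHom.ker (evT Ω e)) μ ≤
      RingHom.ker (evT Ω e) ^ μ := by
  let β : O →ₐ[ℂ] Ω ⊗[ℂ] O := Algebra.TensorProduct.includeRight
  refine jet_le_pow (X := fun c => β ⟨T c, h.mem c⟩ -
    algebraMap Ω _ (evT Ω e (β ⟨T c, h.mem c⟩))) (fun c => sub_mem_ker _ _) (fun s hs => ?_) μ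
  have key : ∀ s : Ω ⊗[ℂ] O, s - algebraMap Ω _ (evT Ω e s) -
      ∑ c, (β ⟨T c, h.mem c⟩ - algebraMap Ω _ (evT Ω e (β ⟨T c, h.mem c⟩))) *
        rder (res (D c) O (h.pres c)) s ∈ RingHom.ker (evT Ω e) ^ 2 := fun s => by
    induction s with
    | zero => simp
    | add s t hs ht =>
      convert add_mem hs ht using 1
      simp only [map_add, mul_add, Finset.sum_add_distrib]
      ring
    | tmul a f =>
      have e1 : ∀ f : O, a ⊗ₜ[ℂ] f = algebraMap Ω (Ω ⊗[ℂ] O) a * β f := fun f => by simp [β]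
      convert Ideal.mul_mem_left _ (algebraMap Ω (Ω ⊗[ℂ] O) a) (euler_coo h (evT Ω e) β f) using 1
      simp only [rder_tmul]
      simp only [e1, mul_sub, Finset.mul_sum, map_mul, AlgHom.commutes,
        Algebra.algebraMap_self, RingHom.id_apply, mul_left_comm (algebraMap Ω (Ω ⊗[ℂ] O) a)]
  have h1 := key s
  rwa [RingHom.mem_ker.1 hs, map_zero, sub_zero] at h1

end eul

end

end Pool.Agent.Lib.MP_bc213e_ag.DL
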