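import Mathlib

/-! Completion of a basis and a dimension count. -/

namespace Pool.Agent.Lib.MP_bc213e_ag.DL

open Cardinal

theorem complete {F κ α : Type} [Field F] [Fintype κ] [DecidableEq κ] [Fintype α] {η : α → κ → F}
    (hη : LinearIndependent F η) (φ : ℕ) (h : Fintype.card α + φ ≤ Fintype.card κ) :
    ∃ σ : Fin φ → κ, LinearIndependent F (Sum.elim η fun i => Pi.single (σ i) (1 : F)) := by
  induction φ with
  | zero =>
    refine ⟨Fin.elim0, Eq.mp (congrArg (fun v => LinearIndependent F v) (funext ?_))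
      (hη.comp _ (Equiv.sumEmpty α (Fin 0)).injective)⟩
    rintro (c | c)
    · rfl
    · exact c.elim0
  | succ φ ih =>
    obtain ⟨σ, hσ⟩ := ih (by omega)
    obtain ⟨c, hc⟩ : ∃ c, Pi.single c (1 : F) ∉ Submodule.span F
        (Set.range (Sum.elim η fun i => (Pi.single (σ i) (1 : F) : κ → F))) := by
      by_contra h0
      push Not at h0
      have h1 : Submodule.span F
          (Set.range (Sum.elim η fun i => (Pi.single (σ i) (1 : F) : κ → F))) = ⊤ := by
        rw [eq_top_iff, ← (Pi.basisFun F κ).span_eq, Submodule.span_le]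
        rintro _ ⟨c, rfl⟩
        rw [Pi.basisFun_apply]
        exact h0 c
      have h2 := finrank_span_eq_card hσ
      rw [h1, finrank_top, Module.finrank_fintype_fun_eq_card] at h2
      simp at h2
      omega
    refine ⟨Fin.cons c σ, ?_⟩
    have h1 := (hσ.option hc).comp (Sum.elim (fun i => some (Sum.inl i))
      (Fin.cons none fun i => some (Sum.inr i)) : α ⊕ Fin (φ + 1) → Option (α ⊕ Fin φ)) (by
      rintro (i | i) (i' | i') e
      · simpa using e
      · cases i' using Fin.cases <;> simp at e
      · cases i using Fin.cases <;> simp at e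
      · cases i using Fin.cases <;> cases i' using Fin.cases <;> simp_all)
    refine Eq.mp (congrArg (fun v => LinearIndependent F v) (funext ?_)) h1
    rintro (i | i)
    · rfl
    · cases i using Fin.cases <;> rfl

/-- The completion contains the coordinates at which a left inverse vanishes. -/
theorem complete_with {F κ : Type} [Field F] [Fintype κ] [DecidableEq κ] {b φ : ℕ}
    (h : b + φ = Fintype.card κ) (η ξ : Fin b → κ → F)
    (hη : ∀ i l, ∑ c, η l c * ξ i c = if i = l then 1 else 0) :
    ∃ σ : Fin φ → κ, LinearIndependent F (Sum.elim η fun i => Pi.single (σ i) (1 : F)) ∧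
      Function.Injective σ ∧ ∀ c, (∀ i, ξ i c = 0) → c ∈ Set.range σ := by
  classical
  let I := {c // ∀ i, ξ i c = 0}
  have h1 : LinearIndependent F (Sum.elim η fun c : I => Pi.single c.1 (1 : F)) := by
    refine Fintype.linearIndependent_iff.2 fun a ha => ?_
    rw [Fintype.sum_sum_type] at ha
    simp only [Sum.elim_inl, Sum.elim_inr] at ha
    have h2 : ∀ i, a (Sum.inl i) = 0 := fun i => by
      have h3 := congrArg (fun w : κ → F => ∑ c, w c * ξ i c) ha
      simp only [Pi.add_apply, Finset.sum_apply, Pi.smul_apply, smul_eq_mul, add_mul,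
        Finset.sum_add_distrib, Finset.sum_mul, Pi.zero_apply, zero_mul,
        Finset.sum_const_zero] at h3
      rw [Finset.sum_comm, Finset.sum_comm (s := Finset.univ) (t := (Finset.univ : Finset I))] at h3
      simp only [mul_assoc, ← Finset.mul_sum, hη] at h3
      have h4 : ∀ c : I, ∑ c', (Pi.single c.1 (1 : F) : κ → F) c' * ξ i c' = 0 := fun c => by
        simp [Pi.single_apply, c.2 i]
      simpa [h4] using h3
    rintro (i | c)
    · exact h2 i
    · have h3 := congrFun ha c.1
      simp only [h2, zero_smul, Finset.sum_const_zero, zero_add, Finset.sum_apply] at h3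
      rw [Finset.sum_eq_single c (fun c' _ hc => by
        simp [Pi.single_eq_of_ne fun e => hc (Subtype.ext e).symm]) (by simp)] at h3
      simpa using h3
  have h2 := h1.fintype_card_le_finrank
  rw [Module.finrank_fintype_fun_eq_card, Fintype.card_sum, Fintype.card_fin] at h2
  obtain ⟨σ, hσ⟩ := complete h1 (φ - Fintype.card I) (by
    rw [Fintype.card_sum, Fintype.card_fin]
    omega)
  let ε : Fin φ ≃ I ⊕ Fin (φ - Fintype.card I) := Fintype.equivOfCardEq (by
    rw [Fintype.card_sum, Fintype.card_fin, Fintype.card_fin]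
    omega)
  have h3 : LinearIndependent F (Sum.elim η fun i =>
      Pi.single (Sum.elim Subtype.val σ (ε i)) (1 : F)) := by
    refine Eq.mp (congrArg (fun v => LinearIndependent F v) (funext ?_)) (hσ.comp _
      (((Equiv.refl _).sumCongr ε).trans (Equiv.sumAssoc _ _ _).symm).injective)
    rintro (i | i)
    · rfl
    · change Sum.elim _ _ ((Equiv.sumAssoc _ _ _).symm (Sum.inr (ε i))) = Pi.single _ 1
      rcases ε i with c | c <;> rfl
  refine ⟨fun i => Sum.elim Subtype.val σ (ε i), h3, fun i i' e => Sum.inr_injective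
    (h3.injective (congrArg (fun c => (Pi.single c (1 : F) : κ → F)) e)), fun c hc =>
    ⟨ε.symm (Sum.inl ⟨c, hc⟩), ?_⟩⟩
  simp

theorem dim_le {A Ω : Type} [CommRing A] [Algebra ℂ A] [Field Ω] [Algebra ℂ Ω] (ψ : A →ₐ[ℂ] Ω)
    (v : Ω) {b : ℕ} {y : Fin b → Ω} (hy : AlgebraicIndependent ℂ y)
    (h : ∀ i, IsAlgebraic (Algebra.adjoin ℂ (insert v (Set.range ψ))) (y i)) :
    (b : Cardinal) ≤ Algebra.trdeg ℂ (A ⧸ RingHom.ker ψ) + 1 := by
  let N := AlgebraicIndependent.matroid ℂ Ω
  obtain ⟨I, hI⟩ := N.exists_isBasis (Set.range ψ)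
  have h1 : #I ≤ Algebra.trdeg ℂ (A ⧸ RingHom.ker ψ) := by
    choose w hw using fun t : I => hI.subset t.2
    refine AlgebraicIndependent.cardinalMk_le_trdeg
      (x := fun t => Ideal.Quotient.mk (RingHom.ker ψ) (w t))
      (AlgebraicIndependent.of_comp (Ideal.kerLiftAlg ψ) ?_)
    exact Eq.mp (congrArg (fun z : I → Ω => AlgebraicIndependent ℂ z)
      (funext fun t => (hw t).symm)) hI.indep
  have h2 : Set.range y ⊆ N.closure (insert v (Set.range ψ)) := by
    rintro _ ⟨i, rfl⟩
    rw [AlgebraicIndependent.matroid_closure_eq]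
    exact h i
  have h3 := Matroid.Indep.cardinalMk_le_cRk_of_subset (M := N) hy.to_subtype_range h2
  rw [Matroid.cRk_closure, ← Matroid.cRk_insert_closure_eq, ← hI.closure_eq_closure,
    Matroid.cRk_insert_closure_eq, mk_range_eq _ hy.injective, mk_fin] at h3
  exact h3.trans ((N.cRk_le_cardinalMk _).trans (mk_insert_le.trans (by gcongr)))

end Pool.Agent.Lib.MP_bc213e_ag.DL
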