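import Pool.Agent.Lib.MP_bc213e_ag.DB.Fibre

/-! The local ring of a subalgebra of a field at a point. -/

namespace Pool.Agent.Lib.MP_bc213e_ag.DL

noncomputable section

section loc

variable {R E Ω : Type} [CommRing R] [Field E] [Algebra R E] [Field Ω] [Algebra R Ω]

/-- The local ring of `C` at the point `ev`. -/
def loc (C : Subalgebra R E) (ev : C →ₐ[R] Ω) : Subalgebra R E where
  carrier := {f | ∃ h : C, ev h ≠ 0 ∧ (h : E) * f ∈ C}
  mul_mem' := fun {f g} ⟨h, h1, h2⟩ ⟨h', h1', h2'⟩ => ⟨h * h', by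
    rw [map_mul]
    exact mul_ne_zero h1 h1', by
    rw [MulMemClass.coe_mul, mul_mul_mul_comm]
    exact mul_mem h2 h2'⟩
  add_mem' := fun {f g} ⟨h, h1, h2⟩ ⟨h', h1', h2'⟩ => ⟨h * h', by
    rw [map_mul]
    exact mul_ne_zero h1 h1', by
    have e : ((h * h' : C) : E) * (f + g) = h' * (h * f) + h * (h' * g) := by
      rw [MulMemClass.coe_mul]
      ring
    rw [e]
    exact add_mem (mul_mem h'.2 h2) (mul_mem h.2 h2')⟩
  algebraMap_mem' := fun r => ⟨1, by
    rw [map_one]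
    exact one_ne_zero, by
    rw [OneMemClass.coe_one, one_mul]
    exact C.algebraMap_mem r⟩

variable {C : Subalgebra R E} {ev : C →ₐ[R] Ω}

theorem mem_loc {f : E} : f ∈ loc C ev ↔ ∃ h : C, ev h ≠ 0 ∧ (h : E) * f ∈ C := Iff.rfl

variable (ev) in
theorem le_loc : C ≤ loc C ev := fun f hf => ⟨1, by
  rw [map_one]
  exact one_ne_zero, by rwa [OneMemClass.coe_one, one_mul]⟩

theorem coe_ne_zero {h : C} (h0 : ev h ≠ 0) : (h : E) ≠ 0 := fun e =>
  h0 (by rw [show h = 0 from Subtype.ext e, map_zero])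

theorem exists_value (f : loc C ev) :
    ∃ c : Ω, ∀ (h g : C), (h : E) * f = g → ev h * c = ev g := by
  obtain ⟨h₀, h1, h2⟩ := f.2
  refine ⟨ev ⟨_, h2⟩ / ev h₀, fun h g e => ?_⟩
  have e1 : h * ⟨_, h2⟩ = h₀ * g := Subtype.ext (by
    rw [MulMemClass.coe_mul, MulMemClass.coe_mul, ← e]
    exact mul_left_comm _ _ _)
  rw [← mul_div_assoc, div_eq_iff h1, ← map_mul, e1, map_mul, mul_comm]

variable (ev) in
/-- The value at the point. -/
def evL : loc C ev →ₐ[R] Ω :=
  have key : ∀ (f : loc C ev) (c : Ω), (∀ (h g : C), (h : E) * f = g → ev h * c = ev g) →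
      (exists_value f).choose = c := fun f c hc => by
    obtain ⟨h, h1, h2⟩ := f.2
    exact mul_left_cancel₀ h1 (((exists_value f).choose_spec h ⟨_, h2⟩ rfl).trans
      (hc h ⟨_, h2⟩ rfl).symm)
  have key' : ∀ (f : loc C ev) (c : Ω) (h g : C), ev h ≠ 0 → (h : E) * f = g → ev h * c = ev g →
      (exists_value f).choose = c := fun f c h g h1 h2 h3 =>
    mul_left_cancel₀ h1 (((exists_value f).choose_spec h g h2).trans h3.symm)
  { toFun := fun f => (exists_value f).choose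
    map_one' := key' _ _ 1 1 (by simp) (by simp) (by simp)
    map_zero' := key' _ _ 1 0 (by simp) (by simp) (by simp)
    map_mul' := fun f f' => by
      obtain ⟨h, h1, h2⟩ := f.2
      obtain ⟨h', h1', h2'⟩ := f'.2
      refine key' _ _ (h * h') (⟨_, h2⟩ * ⟨_, h2'⟩) (by simp [h1, h1'])
        (mul_mul_mul_comm (h : E) h' f f') ?_
      rw [map_mul, map_mul, mul_mul_mul_comm, (exists_value f).choose_spec h ⟨_, h2⟩ rfl,
        (exists_value f').choose_spec h' ⟨_, h2'⟩ rfl]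
    map_add' := fun f f' => by
      obtain ⟨h, h1, h2⟩ := f.2
      obtain ⟨h', h1', h2'⟩ := f'.2
      refine key' _ _ (h * h') (h' * ⟨_, h2⟩ + h * ⟨_, h2'⟩) (by simp [h1, h1']) ?_ ?_
      · change (h : E) * h' * (f + f') = h' * (h * f) + h * (h' * f')
        ring
      · rw [map_add, map_mul, map_mul, map_mul, ← (exists_value f).choose_spec h ⟨_, h2⟩ rfl,
          ← (exists_value f').choose_spec h' ⟨_, h2'⟩ rfl]
        ring
    commutes' := fun r => key' _ _ 1 (algebraMap R C r) (by simp) (one_mul _) (by simp) }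

theorem evL_mul (f : loc C ev) {h g : C} (e : (h : E) * f = g) : ev h * evL ev f = ev g :=
  (exists_value f).choose_spec h g e

theorem evL_eq {f : loc C ev} {g : C} (e : (f : E) = g) : evL ev f = ev g := by
  have h := evL_mul f (h := 1) (g := g) (by rw [OneMemClass.coe_one, one_mul, e])
  rwa [map_one, one_mul] at h

theorem inv_mem (f : loc C ev) (h0 : evL ev f ≠ 0) : (f : E)⁻¹ ∈ loc C ev := by
  obtain ⟨h, h1, h2⟩ := f.2
  have h3 := evL_mul f (h := h) (g := ⟨_, h2⟩) rfl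
  have h4 : (f : E) ≠ 0 := fun e => h0 (by rw [show f = 0 from Subtype.ext e, map_zero])
  refine ⟨⟨_, h2⟩, h3 ▸ mul_ne_zero h1 h0, ?_⟩
  change (h : E) * f * (f : E)⁻¹ ∈ C
  rw [mul_inv_cancel_right₀ h4]
  exact h.2

theorem inv_mem' {h : C} (h0 : ev h ≠ 0) : (h : E)⁻¹ ∈ loc C ev :=
  inv_mem (⟨h, le_loc ev h.2⟩ : loc C ev) (by rwa [evL_eq (g := h) rfl])

theorem isUnit_of_evL {f : loc C ev} (h0 : evL ev f ≠ 0) : IsUnit f :=
  IsUnit.of_mul_eq_one ⟨_, inv_mem f h0⟩ (Subtype.ext (mul_inv_cancel₀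
    fun e => h0 (by rw [show f = 0 from Subtype.ext e, map_zero])))

theorem evL_ne_zero {f : loc C ev} (h0 : (f : E) ≠ 0) (h : (f : E)⁻¹ ∈ loc C ev) :
    evL ev f ≠ 0 := by
  have e : f * ⟨_, h⟩ = 1 := Subtype.ext (mul_inv_cancel₀ h0)
  exact left_ne_zero_of_mul_eq_one (by rw [← map_mul, e, map_one])

/-- A derivation that maps the generators into the local ring preserves it. -/
theorem der_mem {s : Set E} (hC : C ≤ Algebra.adjoin R s) (hs : ∀ f ∈ s, f ∈ C)
    (D : Derivation R E E) (h : ∀ f ∈ s, D f ∈ loc C ev) {f : E} (hf : f ∈ loc C ev) :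
    D f ∈ loc C ev := by
  have h1 : ∀ g ∈ Algebra.adjoin R s, D g ∈ loc C ev := fun g hg => by
    have hle : Algebra.adjoin R s ≤ loc C ev := Algebra.adjoin_le fun z hz => le_loc ev (hs z hz)
    induction hg using Algebra.adjoin_induction with
    | mem x hx => exact h x hx
    | algebraMap r => rw [Derivation.map_algebraMap]; exact zero_mem _
    | add x y _ _ hx hy => rw [map_add]; exact add_mem hx hy
    | mul x y kx ky hx hy =>
      rw [Derivation.leibniz, smul_eq_mul, smul_eq_mul]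
      exact add_mem (mul_mem (hle kx) hy) (mul_mem (hle ky) hx)
  obtain ⟨g, g1, g2⟩ := id hf
  have e : D f = (g : E)⁻¹ * (D (g * f) - f * D g) := by
    rw [Derivation.leibniz, smul_eq_mul, smul_eq_mul, add_sub_cancel_right,
      inv_mul_cancel_left₀ (coe_ne_zero g1)]
  rw [e]
  exact mul_mem (inv_mem' g1) (sub_mem (h1 _ (hC g2)) (mul_mem hf (h1 _ (hC g.2))))

theorem pow_ker {μ : ℕ} {f : loc C ev} (hf : f ∈ RingHom.ker (evL ev) ^ μ) :
    ∃ h : C, ev h ≠ 0 ∧ ∃ g ∈ RingHom.ker ev ^ μ, (h : E) * f = g := by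
  induction μ generalizing f with
  | zero =>
    obtain ⟨h, h1, h2⟩ := f.2
    exact ⟨h, h1, ⟨_, h2⟩, by simp, rfl⟩
  | succ μ ih =>
    rw [pow_succ] at hf
    refine Submodule.mul_induction_on hf (fun s hs t ht => ?_) fun s t hs ht => ?_
    · obtain ⟨h, h1, g, g1, e⟩ := ih hs
      obtain ⟨h', h1', h2'⟩ := t.2
      refine ⟨h * h', by simp [h1, h1'], g * ⟨_, h2'⟩, ?_, ?_⟩
      · rw [pow_succ]
        refine Ideal.mul_mem_mul g1 ?_
        rw [RingHom.mem_ker, ← evL_mul t (h := h') rfl, RingHom.mem_ker.1 ht, mul_zero]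
      · rw [MulMemClass.coe_mul, MulMemClass.coe_mul, MulMemClass.coe_mul, ← e]
        exact mul_mul_mul_comm _ _ _ _
    · obtain ⟨h, h1, g, g1, e⟩ := hs
      obtain ⟨h', h1', g', g1', e'⟩ := ht
      refine ⟨h * h', by simp [h1, h1'], h' * g + h * g',
        add_mem (Ideal.mul_mem_left _ _ g1) (Ideal.mul_mem_left _ _ g1'), ?_⟩
      change (h : E) * h' * (s + t) = h' * g + h * g'
      rw [← e, ← e']
      ring

variable (ev) in
/-- A valuation with centre the point. -/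
theorem exists_val : ∃ V : ValuationSubring E, (∀ f ∈ C, f ∈ V) ∧
    ∀ f : C, V.valuation f < 1 ↔ ev f = 0 := by
  obtain ⟨V, h1, h2⟩ := Ideal.image_subset_nonunits_valuationSubring (A := (loc C ev).toSubring)
    (RingHom.ker (evL ev)) (RingHom.ker_ne_top (evL ev))
  refine ⟨V, fun f hf => h1 (le_loc ev hf), fun f => ⟨fun h => ?_, fun h => ?_⟩⟩
  · by_contra h0
    have h3 := (V.valuation_le_one_iff _).2 (h1 (inv_mem' h0))
    have h4 := mul_lt_one_of_lt_of_le h h3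
    rw [← map_mul, mul_inv_cancel₀ (coe_ne_zero h0), map_one] at h4
    exact lt_irrefl _ h4
  · exact (V.mem_nonunits_iff).1 (h2 ⟨⟨f, le_loc ev f.2⟩, (evL_eq (g := f) rfl).trans h, rfl⟩)

/-- The restriction of a derivation to a stable subalgebra. -/
def res {A : Type} [CommRing A] [Algebra R A] (D : Derivation R A A) (O : Subalgebra R A)
    (h : ∀ f ∈ O, D f ∈ O) : Derivation R O O :=
  Derivation.mk'
    { toFun := fun f => ⟨D f, h f f.2⟩
      map_add' := fun _ _ => Subtype.ext (map_add D _ _)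
      map_smul' := fun c _ => Subtype.ext (D.map_smul c _) }
    fun _ _ => Subtype.ext (D.leibniz _ _)

@[simp] theorem coe_res {A : Type} [CommRing A] [Algebra R A] (D : Derivation R A A)
    (O : Subalgebra R A) (h : ∀ f ∈ O, D f ∈ O) (f : O) : (res D O h f : A) = D f := rfl

end loc

end

end Pool.Agent.Lib.MP_bc213e_ag.DL

namespace Pool.Agent.Lib.MP_bc213e_ag.DD.Geo

open Pool.Agent.Lib.MP_bc213e_ag.DL

noncomputable section

variable {K M ι : Type} [Field K] [Algebra ℂ K] [Field M] [Algebra ℂ M] [Algebra K M] {n : ℕ}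
  {S : Su K M ι n} {Ω E : Type} [Field Ω] [Algebra ℂ Ω] [Field E] [Algebra ℂ E] [Algebra Ω E]
  [IsScalarTower ℂ Ω E] {b φ : ℕ} (G : Geo S Ω E b φ) {j : ι} (ev : G.C j →ₐ[Ω] Ω)

/-- The point of `W` defined by a point of the fibre. -/
def ez : S.B j →ₐ[ℂ] Ω :=
  (ev.restrictScalars ℂ).comp
    ((G.ι.comp (S.B j).val).codRestrict ((G.C j).restrictScalars ℂ) fun f => G.ι_mem_C f.2)

theorem ez_apply (f : S.B j) : G.ez ev f = ev ⟨G.ι f, G.ι_mem_C f.2⟩ := rfl

/-- The local ring of `W`. -/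
abbrev Oz : Subalgebra ℂ M := loc (S.B j) (G.ez ev)

/-- The local ring of the fibre. -/
abbrev OFz : Subalgebra Ω E := loc (G.C j) ev

variable {G ev} in
theorem ι_mem_OFz {f : M} (h : f ∈ G.Oz ev) : G.ι f ∈ G.OFz ev := by
  obtain ⟨g, g1, g2⟩ := h
  refine ⟨⟨_, G.ι_mem_C g.2⟩, g1, ?_⟩
  have := G.ι_mem_C g2
  rwa [map_mul] at this

/-- The restriction to the fibre. -/
def ιO : G.Oz ev →ₐ[ℂ] G.OFz ev where
  toFun := fun f => ⟨G.ι f, ι_mem_OFz f.2⟩
  map_one' := Subtype.ext (map_one G.ι)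
  map_zero' := Subtype.ext (map_zero G.ι)
  map_mul' := fun _ _ => Subtype.ext (map_mul G.ι _ _)
  map_add' := fun _ _ => Subtype.ext (map_add G.ι _ _)
  commutes' := fun c => Subtype.ext (G.ι.commutes c)

theorem coe_ιO (f : G.Oz ev) : (G.ιO ev f : E) = G.ι f := rfl

theorem evL_ιO (f : G.Oz ev) : evL ev (G.ιO ev f) = evL (G.ez ev) f := by
  obtain ⟨g, g1, g2⟩ := f.2
  refine mul_left_cancel₀ g1 ?_
  rw [evL_mul f (h := g) (g := ⟨_, g2⟩) rfl]
  exact evL_mul (G.ιO ev f) (h := ⟨_, G.ι_mem_C g.2⟩) (g := ⟨_, G.ι_mem_C g2⟩)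
    (map_mul G.ι _ _).symm

theorem evL_k {f : G.Oz ev} (h : (f : M) ∈ G.k) : evL (G.ez ev) f = G.e f := by
  rw [← evL_ιO, show G.ιO ev f = algebraMap Ω _ (G.e f) from Subtype.ext (G.ι_k h)]
  exact (evL ev).commutes _

theorem ez_v [IsScalarTower ℂ K M] [Fintype ι] : G.ez ev ⟨S.v j, S.v_mem j⟩ ≠ 0 := by
  have e : (⟨_, G.ι_mem_C (S.v_mem j)⟩ : G.C j) * ⟨_, G.v_inv_mem j⟩ = 1 :=
    Subtype.ext (mul_inv_cancel₀ ((map_ne_zero G.ι).2 (S.v_ne j)))
  have h := congrArg ev e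
  rw [map_mul, map_one] at h
  exact left_ne_zero_of_mul_eq_one h

end

end Pool.Agent.Lib.MP_bc213e_ag.DD.Geo
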