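import Pool.Agent.Lib.MP_bc213e_ag.DL.Rank

/-! Coordinates at every point of the fibre. -/

namespace Pool.Agent.Lib.MP_bc213e_ag.DD.Geo

open Pool.Agent.Lib.MP_bc213e_ag.DA Pool.Agent.Lib.MP_bc213e_ag.Jet Pool.Agent.Lib.MP_bc213e_ag.DL
open MvPowerSeries

/-- The Taylor expansion as an algebra homomorphism. -/
noncomputable def tayA {σ k T R : Type} [Fintype σ] [DecidableEq σ] [CommRing k] [CommRing T]
    [Algebra k T] [CommRing R] [Algebra ℚ R] [Algebra k R] {D : σ → Derivation k T T} (hD : Comm D)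
    (ε : T →ₐ[k] R) : T →ₐ[k] MvPowerSeries σ R where
  toRingHom := tay hD ε.toRingHom
  commutes' := fun c => (tay_const hD ε.toRingHom fun i => (D i).map_algebraMap c).trans
    ((congrArg MvPowerSeries.C (ε.commutes c)).trans MvPowerSeries.algebraMap_apply.symm)

variable {K M ι : Type} [Field K] [Algebra ℂ K] [Field M] [Algebra ℂ M] [Algebra K M] {n : ℕ}
  {S : Su K M ι n} {Ω E : Type} [Field Ω] [Algebra ℂ Ω] [Field E] [Algebra ℂ E] [Algebra Ω E]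
  [IsScalarTower ℂ Ω E] {b φ : ℕ} (G : Geo S Ω E b φ) [IsScalarTower ℂ K M] [Fintype ι]
  [IsAlgClosed Ω]

theorem exists_tau (hb : S.d₀ + 2 ≤ b) :
    ∃ c₀ e, ∀ (j : ι) (ev : G.C j →ₐ[Ω] Ω), Nonempty (G.Tau c₀ e j ev) := by
  have : CharZero Ω := charZero_of_injective_algebraMap (algebraMap ℂ Ω).injective
  obtain ⟨c₀, hc₀⟩ := G.bl
  obtain ⟨e, he⟩ := G.exists_unif hb
  refine ⟨c₀, e, fun j ev => ?_⟩
  obtain ⟨L, hL, hU⟩ := he j ev
  obtain ⟨σ, D, dd, mu1, hD, j1, j2, j3, j4, j5, j6⟩ := G.exists_coo_y ev L hL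
  choose D' hD' using fun c : Fin φ => G.exists_der_E (D := D (Sum.inr c)) fun i =>
    (hD.dual (Sum.inr c) (Sum.inl i)).trans (if_neg Sum.inr_ne_inl)
  have p1 : ∀ c, ∀ f ∈ G.OFz ev, D' c f ∈ G.OFz ev := fun c f hf =>
    der_mem (s := Set.range fun o => G.ι (S.gen j o)) le_rfl (fun _ h => Algebra.subset_adjoin h)
      (D' c) (by
        rintro _ ⟨o, rfl⟩
        rw [hD']
        exact ι_mem_OFz (hD.pres _ _ (le_loc _ (S.gen_mem j o)))) hf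
  have c1 : Comm D' := fun c d f => sub_eq_zero.1
    (DA.der_eq_zero (G.tb_E hD.tb) ⁅D' c, D' d⁆ (fun i => by
      rw [Derivation.commutator_apply, hD', hD', hD', hD', hD.toFrame.comm, sub_self]) f)
  have c2 : Comm fun c => res (D' c) _ (p1 c) := fun c d f => Subtype.ext (c1 c d f)
  have c3 : Comm fun i => res (D (Sum.inl i)) _ (hD.pres _) := fun c d f =>
    Subtype.ext (hD.toFrame.comm _ _ f)
  have p2 : ∀ c f, res (D' c) _ (p1 c) (G.ιO ev f) = G.ιO ev (res (D (Sum.inr c)) _ (hD.pres _) f) :=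
    fun c f => Subtype.ext (hD' c f)
  let τF₀ := tayA c2 (evL ev)
  let τ₀ := tayA c3 ((τF₀.restrictScalars ℂ).comp (G.ιO ev))
  obtain ⟨τF, hτF⟩ :=
    LinearMap.exists_extend (p := Subalgebra.toSubmodule (G.OFz ev)) τF₀.toLinearMap
  obtain ⟨τ, hτ⟩ := LinearMap.exists_extend (p := Subalgebra.toSubmodule (G.Oz ev)) τ₀.toLinearMap
  have eF : ∀ f : G.OFz ev, τF f = τF₀ f := fun f => LinearMap.congr_fun hτF f
  have eO : ∀ f : G.Oz ev, τ f = τ₀ f := fun f => LinearMap.congr_fun hτ f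
  have eC : ∀ f : G.C j, constantCoeff (τF f) = ev f := fun f =>
    (congrArg constantCoeff (eF ⟨f, le_loc ev f.2⟩)).trans
      ((constantCoeff_tay c2 _ _).trans (evL_eq rfl))
  have hord : ∀ a, 0 < a → ∀ w ∈ G.R a, τF (w / G.X j ^ a) ∈ Ord (Fin φ) Ω (c₀ * a) → w = 0 := by
    intro a ha w hw h
    let f : G.OFz ev := ⟨_, le_loc ev (div_mem_C hw j)⟩
    let X : Fin φ → G.OFz ev := fun c => G.ιO ev ⟨_, hD.mem (Sum.inr c)⟩ -
      algebraMap Ω _ (evL ev (G.ιO ev ⟨_, hD.mem (Sum.inr c)⟩))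
    refine hc₀ j ev a ha w hw f rfl (jet_le_pow (X := X) (fun c => sub_mem_ker _ _)
      (euler_loc (C := G.C j) rfl ?_) _ (jet_of_ord c2 (evL ev).toRingHom (eF f ▸ h)))
    rintro f ⟨o, ho⟩
    obtain rfl : f = G.ιO ev ⟨_, le_loc _ (S.gen_mem j o)⟩ := Subtype.ext ho.symm
    have h2 := euler_coo hD (evL ev) (G.ιO ev) ⟨_, le_loc _ (S.gen_mem j o)⟩
    rw [Fintype.sum_sum_type, Finset.sum_eq_zero, zero_add] at h2
    · simpa only [← p2] using h2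
    · intro i _
      rw [evL_ιO, G.evL_k ev (G.y_mem i), show G.ιO ev ⟨_, hD.mem (Sum.inl i)⟩ =
        algebraMap Ω _ (G.e (G.y i)) from Subtype.ext (G.ι_k (G.y_mem i))]
      exact mul_eq_zero_of_left (sub_self _) _
  refine ⟨⟨_, D, G.Oz ev, G.OFz ev, τ, τF, dd, mu1, fun c => S.crd_mem j L.ζ (σ c),
    fun c => hU (σ c), hD, fun f => ?_, fun f => ?_, eC, j1,
    fun c hc => (eC ⟨_, G.ι_mem_C (S.crd_mem j L.ζ (σ c))⟩).trans (j2 c hc), j3, j4, j5, j6,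
    (eO 1).trans (map_one _),
    fun f hf f' hf' => ?_, (eF 1).trans (map_one _), fun f hf f' hf' => ?_, fun c f hf => ?_,
    fun f hf => ?_, fun f hf h => ?_, hord⟩⟩
  · exact ⟨fun ⟨h, h1, h2⟩ => ⟨h, h.2, (eC ⟨_, G.ι_mem_C h.2⟩).trans_ne h1, h2⟩,
      fun ⟨h, h0, h1, h2⟩ => ⟨⟨h, h0⟩, (eC ⟨_, G.ι_mem_C h0⟩).symm.trans_ne h1, h2⟩⟩
  · exact ⟨fun ⟨h, h1, h2⟩ => ⟨h, h.2, (eC h).trans_ne h1, h2⟩,
      fun ⟨h, h0, h1, h2⟩ => ⟨⟨h, h0⟩, (eC ⟨h, h0⟩).symm.trans_ne h1, h2⟩⟩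
  · rw [eO ⟨f, hf⟩, eO ⟨f', hf'⟩, ← map_mul]
    exact eO (⟨f, hf⟩ * ⟨f', hf'⟩)
  · rw [eF ⟨f, hf⟩, eF ⟨f', hf'⟩, ← map_mul]
    exact eF (⟨f, hf⟩ * ⟨f', hf'⟩)
  · rw [eO ⟨f, hf⟩, eO ⟨_, hD.pres c f hf⟩]
    rcases c with c | c
    · exact pderiv_tay c3 _ _ c
    · have h1 : ∀ β (g : G.Oz ev), res (D (Sum.inr c)) _ (hD.pres _) (dpow c3 β g) =
          dpow c3 β (res (D (Sum.inr c)) _ (hD.pres _) g) := fun β g => by
        induction β using deg_ind with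
        | h0 => rw [dpow_zero, dpow_zero]
        | h1 β i ih =>
          rw [dpow_add_single, dpow_add_single, ← ih]
          exact Subtype.ext (hD.toFrame.comm _ _ _)
      refine MvPowerSeries.ext fun β => ?_
      change pderiv Ω c ((mfac β : ℚ)⁻¹ • τF₀ (G.ιO ev (dpow c3 β ⟨f, hf⟩))) =
        (mfac β : ℚ)⁻¹ • τF₀ (G.ιO ev (dpow c3 β (res (D (Sum.inr c)) _ (hD.pres _) ⟨f, hf⟩)))
      rw [map_rat_smul, ← h1, ← p2]
      exact congrArg _ (pderiv_tay c2 _ _ c)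
  · rw [eO ⟨f, hf⟩]
    exact (constantCoeff_tay c3 _ _).trans (eF (G.ιO ev ⟨f, hf⟩)).symm
  · obtain ⟨g, g1, g2⟩ := id hf
    obtain ⟨N, hN⟩ := G.homog g2
    have h1 := hord (N + 1) N.succ_pos _ (hN _ N.le_succ) (by
      rw [mul_div_cancel_left₀ _ (pow_ne_zero _ (G.X_ne j)),
        show τF (g * f) = _ from eF (⟨g, le_loc ev g.2⟩ * ⟨f, hf⟩), map_mul, ← eF ⟨f, hf⟩, h,
        mul_zero]
      exact zero_mem _)
    exact (mul_eq_zero.1 ((mul_eq_zero.1 h1).resolve_left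
      (pow_ne_zero _ (G.X_ne j)))).resolve_left (coe_ne_zero g1)

end Pool.Agent.Lib.MP_bc213e_ag.DD.Geo
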