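import Pool.Agent.Lib.MP_bc213e_ag.DL.Pre

/-! A derivation that fixes a point of the fibre fixes the fibre. -/

namespace Pool.Agent.Lib.MP_bc213e_ag.DD.Geo

open Pool.Agent.Lib.MP_bc213e_ag.DA Pool.Agent.Lib.MP_bc213e_ag.Jet Pool.Agent.Lib.MP_bc213e_ag.DL
open scoped TensorProduct

theorem der_pow {k T : Type} [CommRing k] [CommRing T] [Algebra k T] (D : Derivation k T T)
    {I : Ideal T} (h : ∀ s ∈ I, D s ∈ I) (N : ℕ) {s : T} (hs : s ∈ I ^ N) : D s ∈ I ^ N := by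
  induction N generalizing s with
  | zero => simp
  | succ N ih =>
    rw [pow_succ] at hs ⊢
    refine Submodule.mul_induction_on hs (fun s hs t ht => ?_) fun s t hs ht => ?_
    · rw [Derivation.leibniz, smul_eq_mul, smul_eq_mul, mul_comm t]
      exact add_mem (Ideal.mul_mem_mul hs (h t ht)) (Ideal.mul_mem_mul (ih hs) ht)
    · rw [map_add]
      exact add_mem hs ht

variable {K M ι : Type} [Field K] [Algebra ℂ K] [Field M] [Algebra ℂ M] [Algebra K M] {n : ℕ}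
  {S : Su K M ι n} {Ω E : Type} [Field Ω] [Algebra ℂ Ω] [Field E] [Algebra ℂ E] [Algebra Ω E]
  [IsScalarTower ℂ Ω E] {b φ : ℕ} (G : Geo S Ω E b φ) [IsScalarTower ℂ K M] [Fintype ι]
  [IsAlgClosed Ω]

theorem kill {j : ι} (ev : G.C j →ₐ[Ω] Ω) (d : Derivation ℂ Ω Ω) (hd : ∀ f, d (G.ez ev f) = 0)
    {y : M} (hy : y ∈ G.k) : d (G.e y) = 0 := by
  have : CharZero E := charZero_of_injective_algebraMap (algebraMap ℂ E).injective
  have : Algebra.FiniteType ℂ (S.B j) := Algebra.FiniteType.adjoin_of_finite (Set.finite_range _)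
  have : IsNoetherianRing (Ω ⊗[ℂ] S.B j) := Algebra.FiniteType.isNoetherianRing Ω _
  obtain ⟨c₀, hc₀⟩ := G.bl
  let inc : Ω ⊗[ℂ] S.B j →ₐ[Ω] Ω ⊗[ℂ] M := Algebra.TensorProduct.map (AlgHom.id Ω Ω) (S.B j).val
  let ψ : S.B j →ₐ[ℂ] G.OFz ev := (G.ιO ev).comp (Subalgebra.inclusion (le_loc _))
  have h1 : ∀ s, (evT Ω ψ s : E) = evT Ω G.ι (inc s) ∧ evL ev (evT Ω ψ s) = evT Ω (G.ez ev) s ∧
      evT Ω (G.ez ev) (lder d s) = d (evT Ω (G.ez ev) s) ∧ inc (lder d s) = lder d (inc s) :=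
    fun s => by
      induction s with
      | zero => simp
      | add s t hs ht =>
        refine ⟨?_, ?_, ?_, ?_⟩
        · rw [map_add, map_add, map_add, ← hs.1, ← ht.1]
          rfl
        · simp only [map_add, hs.2.1, ht.2.1]
        · simp only [map_add, hs.2.2.1, ht.2.2.1]
        · simp only [map_add, hs.2.2.2, ht.2.2.2]
      | tmul c f =>
        refine ⟨rfl, ?_, ?_, rfl⟩
        · rw [evT_tmul, evT_tmul, map_mul, AlgHom.commutes,
            evL_eq (f := ψ f) (g := ⟨_, G.ι_mem_C f.2⟩) rfl]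
          rfl
        · rw [lder_tmul, evT_tmul, evT_tmul, Derivation.leibniz, hd, smul_zero, zero_add, mul_comm]
          rfl
  have hc : Comm fun _ : Unit => (lder d : Derivation ℂ (Ω ⊗[ℂ] M) (Ω ⊗[ℂ] M)) := fun _ _ _ => rfl
  let θ := tay hc (evT Ω G.ι).toRingHom
  have : IsDomain (MvPowerSeries Unit E) := NoZeroDivisors.to_isDomain _
  have : (RingHom.ker θ).IsPrime := RingHom.ker_isPrime θ
  have h2 : ∀ s ∈ RingHom.ker θ, evT Ω G.ι s = 0 := fun s hs => by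
    have := constantCoeff_tay hc (evT Ω G.ι).toRingHom s
    rw [show tay hc (evT Ω G.ι).toRingHom s = 0 from hs, map_zero] at this
    exact this.symm
  have h3 : ∀ a, 0 < a → ∀ t ∈ RingHom.ker (evT Ω (G.ez ev)) ^ (c₀ * a),
      inc t * 1 ⊗ₜ (S.X j ^ a) ∈ (S.U a).baseChange Ω →
        inc t * 1 ⊗ₜ (S.X j ^ a) ∈ RingHom.ker θ := fun a ha t t1 t2 => by
    let Z : Set (Ω ⊗[ℂ] M) := {s | s ∈ (S.U a).baseChange Ω ∧
      ∃ t ∈ RingHom.ker (evT Ω (G.ez ev)) ^ (c₀ * a), inc t * 1 ⊗ₜ (S.X j ^ a) = s}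
    have k2 : ∀ s ∈ Z, lder d s ∈ Z := by
      rintro _ ⟨t1, t, t2, rfl⟩
      refine ⟨lder_mem d _ t1, lder d t, der_pow _ (fun u hu => ?_) _ t2, ?_⟩
      · rw [RingHom.mem_ker, (h1 u).2.2.1, RingHom.mem_ker.1 hu, map_zero]
      · rw [(h1 t).2.2.2, Derivation.leibniz, lder_tmul, Derivation.map_one_eq_zero,
          TensorProduct.zero_tmul, smul_zero, zero_add, smul_eq_mul, mul_comm]
    have k3 : ∀ s ∈ Z, evT Ω G.ι s = 0 := by
      rintro _ ⟨t1, t, t2, rfl⟩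
      refine hc₀ j ev a ha _ ⟨_, t1, rfl⟩ (evT Ω ψ t) ?_ ?_
      · rw [(h1 t).1, eq_div_iff (pow_ne_zero _ (G.X_ne j)), map_mul, evT_one, map_pow]
        rfl
      · have k4 : RingHom.ker (evT Ω (G.ez ev)) ≤ (RingHom.ker (evL ev)).comap (evT Ω ψ) :=
          fun u hu => (h1 u).2.1.trans hu
        exact ((Ideal.pow_right_mono k4 _).trans (Ideal.le_comap_pow _ _)) t2
    exact MvPowerSeries.ext fun β =>
      (coeff_tay_eq_zero hc _ _ β).2 (k3 _ (dpow_mem hc (fun _ => k2) β ⟨t2, t, t1, rfl⟩))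
  obtain ⟨c, hc'⟩ := S.jet_mem (RingHom.ker θ) (fun a ha => by
    let l : Ω ⊗[ℂ] S.B j →ₗ[Ω] Ω ⊗[ℂ] M :=
      LinearMap.mulRight Ω (1 ⊗ₜ (S.X j ^ a)) ∘ₗ inc.toLinearMap
    have k1 : (S.U a).baseChange Ω ≤ LinearMap.range l := by
      rintro _ ⟨t, rfl⟩
      induction t with
      | zero => rw [map_zero]; exact zero_mem _
      | add t t' h h' => rw [map_add]; exact add_mem h h'
      | tmul c f =>
        refine ⟨c ⊗ₜ ⟨f / S.X j ^ a, f.2 j⟩, ?_⟩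
        change c ⊗ₜ[ℂ] (f / S.X j ^ a : M) * (1 : Ω) ⊗ₜ[ℂ] (S.X j ^ a) = c ⊗ₜ[ℂ] (f : M)
        rw [Algebra.TensorProduct.tmul_mul_tmul, mul_one,
          div_mul_cancel₀ _ (pow_ne_zero _ (S.X_ne j))]
    have := finite_quot_pow (evT Ω (G.ez ev)) (c₀ * a)
    rw [← Submodule.map_comap_eq_self k1, ← Submodule.map_comp]
    exact finite_map_of_ker _
      (Ideal.Quotient.mkₐ Ω (RingHom.ker (evT Ω (G.ez ev)) ^ (c₀ * a + 1))).toLinearMap _
      fun t t1 t2 => Ideal.algebraMap_residueField_eq_zero.2 (h3 a ha t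
        (Ideal.pow_le_pow_right (Nat.le_succ _) (Ideal.Quotient.eq_zero_iff_mem.1 t2)) t1))
    G.e fun s hs => G.ev_e (h2 s hs)
  obtain ⟨T, r, N, hr, hT, hN⟩ := G.large c
  have h7 : Ideal.span (T : Set (Ω ⊗[ℂ] M)) ≤ RingHom.ker θ := Ideal.span_le.2 fun s hs => by
    obtain ⟨a, ha, s1, s2⟩ := hT s hs
    exact hc' a ha s s1 (Jet_mono (fun t ht => G.ev_e ht) _ s2)
  have h9 := Ideal.IsPrime.mem_of_pow_mem this N ((Ideal.IsPrime.mem_or_mem this
    (h7 (hN _ (Ideal.pow_mem_pow (G.eps_mem hy) N)))).resolve_left fun h => hr (h2 r h))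
  have h11 := pderiv_tay hc (evT Ω G.ι).toRingHom (G.e y ⊗ₜ[ℂ] (1 : M) - (1 : Ω) ⊗ₜ[ℂ] y) ()
  rw [show tay hc (evT Ω G.ι).toRingHom _ = 0 from h9, map_zero] at h11
  simpa using h2 _ h11.symm

end Pool.Agent.Lib.MP_bc213e_ag.DD.Geo
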