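import Pool.Agent.Lib.MP_bc213e_ag.DL.Eul
import Pool.Agent.Lib.MP_bc213e_ag.DL.BL

/-! A subvariety on which the spaces of sections have finite rank. -/

namespace Pool.Agent.Lib.MP_bc213e_ag.DD

open Pool.Agent.Lib.MP_bc213e_ag.Hyp Pool.Agent.Lib.MP_bc213e_ag.DA Pool.Agent.Lib.MP_bc213e_ag.Jet
  Pool.Agent.Lib.MP_bc213e_ag.DL
open scoped TensorProduct

noncomputable section

theorem Frame.coo_top {M κ : Type} [Field M] [Algebra ℂ M] [DecidableEq κ] {T : κ → M}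
    {D : κ → Derivation ℂ M M} (h : Frame T D) : Coo ⊤ T D := by
  refine ⟨h, fun _ => trivial, fun _ _ _ => trivial, fun S N _ _ _ _ β δ hδ h0 => ?_⟩
  let γ : M →ₐ[ℂ] (⊤ : Subalgebra ℂ M) := Subalgebra.topEquiv.symm.toAlgHom
  have h1 := hδ.comp γ
  let mA : Module M N := Module.compHom N (β.comp γ : M →+* S)
  let mC : Module ℂ N := Module.compHom N (algebraMap ℂ S)
  have sA : ∀ (x : M) (v : N), x • v = β.comp γ x • v := fun _ _ => rfl
  have sC : ∀ (x : ℂ) (v : N), x • v = algebraMap ℂ S x • v := fun _ _ => rfl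
  have st : IsScalarTower ℂ M N :=
    ⟨fun c x v => by rw [sA, sC, sA, map_smul, Algebra.smul_def, mul_smul]⟩
  let d : Derivation ℂ M N := Derivation.mk'
    { toFun := δ.comp (γ : M →+ (⊤ : Subalgebra ℂ M))
      map_add' := map_add _
      map_smul' := fun c x => by
        rw [Algebra.smul_def, h1.mul, h1.const, smul_zero, add_zero, AlgHom.commutes]
        rfl } h1.mul
  refine AddMonoidHom.ext fun f => (Module.forall_dual_apply_eq_zero_iff M (d f)).1 fun l => ?_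
  exact DFunLike.congr_fun (TCI.der_eq_zero T h.tb (l.compDer d) fun c =>
    (congrArg l (h0 c)).trans (map_zero l)) (f : M)

variable {K M ι : Type} [Field K] [Algebra ℂ K] [Field M] [Algebra ℂ M] [Algebra K M] {n : ℕ}

/-- The function field of a subvariety on which the sections have finite rank. -/
structure Pre (S : Su K M ι n) (Ω E : Type) [Field Ω] [Algebra ℂ Ω] [Field E] [Algebra ℂ E]
    [Algebra Ω E] [IsScalarTower ℂ Ω E] where
  ι : M →ₐ[ℂ] E
  frac : ∀ z : E, ∃ s t : Ω ⊗[ℂ] M, evT Ω ι t ≠ 0 ∧ z * evT Ω ι t = evT Ω ι s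
  bd : ∀ a, 0 < a → FiniteDimensional Ω (((S.U a).baseChange Ω).map (evT Ω ι).toLinearMap)

namespace Pre

variable {S : Su K M ι n} {Ω E : Type} [Field Ω] [Algebra ℂ Ω] [Field E] [Algebra ℂ E]
  [Algebra Ω E] [IsScalarTower ℂ Ω E] (G : Pre S Ω E)

/-- The coordinates. -/
def X (j : ι) : E := G.ι (S.X j)

/-- The chart ring. -/
def C (j : ι) : Subalgebra Ω E := Algebra.adjoin Ω (Set.range fun o => G.ι (S.gen j o))

/-- The restrictions of the sections. -/
def R (a : ℕ) : Submodule Ω E := Submodule.span Ω (G.ι '' S.U a)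

theorem X_ne (j : ι) : G.X j ≠ 0 := (map_ne_zero _).2 (S.X_ne j)

theorem X_one : G.X S.i₀ = 1 := by rw [X, S.X_one, map_one]

theorem ι_mem_C {j : ι} {f : M} (h : f ∈ S.B j) : G.ι f ∈ G.C j := by
  refine (Algebra.adjoin_le (S := ((G.C j).restrictScalars ℂ).comap G.ι) ?_) h
  rintro _ ⟨o, rfl⟩
  exact Algebra.subset_adjoin (R := Ω) ⟨o, rfl⟩

theorem ι_mem_R {a : ℕ} {f : M} (h : f ∈ S.U a) : G.ι f ∈ G.R a :=
  Submodule.subset_span ⟨f, h, rfl⟩

variable {G} in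
theorem mul_mem_R {a a' : ℕ} {w w' : E} (h : w ∈ G.R a) (h' : w' ∈ G.R a') :
    w * w' ∈ G.R (a + a') := by
  have h1 := Submodule.mul_mem_mul h h'
  rw [R, R, Submodule.span_mul_span] at h1
  refine Submodule.span_mono ?_ h1
  rintro _ ⟨_, ⟨f, hf, rfl⟩, _, ⟨g, hg, rfl⟩, rfl⟩
  exact ⟨f * g, Su.mul_mem_U hf hg, map_mul _ _ _⟩

variable {G} in
theorem div_mem_C {a : ℕ} {w : E} (h : w ∈ G.R a) (j : ι) : w / G.X j ^ a ∈ G.C j := by
  induction h using Submodule.span_induction with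
  | mem x hx =>
    obtain ⟨f, hf, rfl⟩ := hx
    rw [X, ← map_pow, ← map_div₀]
    exact G.ι_mem_C (hf j)
  | zero =>
    rw [zero_div]
    exact zero_mem _
  | add x y _ _ hx hy =>
    rw [add_div]
    exact add_mem hx hy
  | smul c x _ hx =>
    rw [smul_div_assoc]
    exact Subalgebra.smul_mem _ hx c

theorem fd_R {a : ℕ} (ha : 0 < a) : FiniteDimensional Ω (G.R a) :=
  show FiniteDimensional Ω (Submodule.span Ω (G.ι '' S.U a)) from
    map_baseChange (Ω := Ω) G.ι (S.U a) ▸ G.bd a ha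

theorem gen_eq (j l : ι) : G.ι (S.gen j (some l)) = G.X l / G.X j := map_div₀ G.ι _ _

variable [IsScalarTower ℂ K M]

theorem gen_E (j : ι) :
    IntermediateField.adjoin Ω (Set.range fun o => G.ι (S.gen j o)) = ⊤ := by
  have h1 : ∀ f, G.ι f ∈ IntermediateField.adjoin Ω (Set.range fun o => G.ι (S.gen j o)) := by
    intro f
    obtain ⟨a, ha, b, hb, rfl⟩ := IntermediateField.mem_adjoin_iff_div.1 (S.su_top j ▸
      IntermediateField.mem_top : f ∈ IntermediateField.adjoin ℂ (Set.range (S.gen j)))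
    rw [map_div₀]
    exact div_mem (IntermediateField.algebra_adjoin_le_adjoin Ω _ (G.ι_mem_C ha))
      (IntermediateField.algebra_adjoin_le_adjoin Ω _ (G.ι_mem_C hb))
  have h : ∀ s, evT Ω G.ι s ∈ IntermediateField.adjoin Ω (Set.range fun o => G.ι (S.gen j o)) :=
    fun s => by
      induction s with
      | zero => rw [map_zero]; exact zero_mem _
      | add s t hs ht => rw [map_add]; exact add_mem hs ht
      | tmul c f => exact mul_mem (IntermediateField.algebraMap_mem _ c) (h1 f)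
  refine eq_top_iff.2 fun z _ => ?_
  obtain ⟨s, t, ht, e⟩ := G.frac z
  rw [eq_div_of_mul_eq ht e]
  exact div_mem (h s) (h t)

variable [Fintype ι]

include G in
theorem trdeg_E : ∃ φ : ℕ, Algebra.trdeg Ω E = φ := by
  have : Algebra.EssFiniteType Ω E := by
    rw [← IntermediateField.fg_top_iff, ← G.gen_E S.i₀]
    exact IntermediateField.fg_adjoin_of_finite (Set.finite_range _)
  exact Cardinal.lt_aleph0.1 (trdeg_lt_aleph0 Ω E)

theorem homog {j : ι} {f : E} (h : f ∈ G.C j) : ∃ N, ∀ a, N ≤ a → G.X j ^ a * f ∈ G.R a := by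
  induction h using Algebra.adjoin_induction with
  | mem x hx =>
    obtain ⟨o, rfl⟩ := hx
    obtain ⟨N, hN⟩ := S.homog (S.gen_mem j o)
    refine ⟨N, fun a ha => ?_⟩
    rw [X, ← map_pow, ← map_mul]
    exact G.ι_mem_R (hN a ha)
  | algebraMap c =>
    refine ⟨0, fun a _ => ?_⟩
    rw [mul_comm, ← Algebra.smul_def, X, ← map_pow]
    exact Submodule.smul_mem _ _ (G.ι_mem_R (by simpa using Su.pow_mem_U (S.X_mem_U j) a))
  | add x y _ _ hx hy =>
    obtain ⟨N, hN⟩ := hx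
    obtain ⟨N', hN'⟩ := hy
    refine ⟨N + N', fun a ha => ?_⟩
    rw [mul_add]
    exact add_mem (hN a (by omega)) (hN' a (by omega))
  | mul x y _ _ hx hy =>
    obtain ⟨N, hN⟩ := hx
    obtain ⟨N', hN'⟩ := hy
    refine ⟨N + N', fun a ha => ?_⟩
    obtain ⟨c, rfl⟩ : ∃ c, a = N + c := ⟨a - N, by omega⟩
    rw [pow_add, mul_mul_mul_comm]
    exact mul_mem_R (hN N le_rfl) (hN' c (by omega))

theorem v_unit (O : ValuationSubring E) (hO : ∀ c : Ω, algebraMap Ω E c ∈ O) (j : ι)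
    (hx : ∀ l, G.X l / G.X j ∈ O) : O.valuation (G.ι (S.v j)) = 1 := by
  let ρ : K →ₐ[ℂ] E := G.ι.comp (IsScalarTower.toAlgHom ℂ K M)
  have hρ : ∀ r ∈ chart S.x j, ρ r ∈ O := fun r hr => by
    induction hr using Algebra.adjoin_induction with
    | mem z hz =>
      obtain ⟨l, rfl⟩ := hz
      rw [map_div₀]
      exact hx l
    | algebraMap c =>
      rw [AlgHom.commutes, IsScalarTower.algebraMap_apply ℂ Ω E]
      exact hO _
    | add a b _ _ ha hb => exact map_add ρ a b ▸ add_mem ha hb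
    | mul a b _ _ ha hb => exact map_mul ρ a b ▸ mul_mem ha hb
  let f : chart S.x j →+* O :=
    (ρ.toRingHom.comp (chart S.x j).val.toRingHom).codRestrict O fun r => hρ r r.2
  obtain ⟨a, ha, h⟩ := pf S.cart S.nef j ((IsLocalRing.maximalIdeal O).comap f)
    (Ideal.comap_ne_top f (IsLocalRing.maximalIdeal.isMaximal O).ne_top)
  choose r hr hs using h
  have h1 : ∀ t, O.valuation (ρ (r t)) = 1 := fun t =>
    le_antisymm ((O.valuation_le_one_iff _).2 (hρ _ (r t).2))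
      (not_lt.1 fun e => hr t ((O.valuation_lt_one_iff (f (r t))).2 e))
  have h2 : ∀ t, ρ (r t) * G.ι (S.v j) ^ t * G.X j ^ a ∈ G.R a := fun t => by
    have := G.ι_mem_R (S.V_le_U t a (S.sec_mem_V le_rfl (hs t)))
    convert this using 1
    simp only [ρ, KBB.fr, Su.v, X, Su.X, zpow_natCast, map_mul, map_pow, AlgHom.comp_apply,
      IsScalarTower.toAlgHom_apply]
    ring
  have h3 : G.ι (S.v j) ≠ 0 := (map_ne_zero _).2 (S.v_ne j)
  have h4 : O.valuation (G.X j ^ a) ≠ 0 := (map_ne_zero _).2 (pow_ne_zero _ (G.X_ne j))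
  by_contra hne
  have := G.fd_R ha
  refine Module.Finite.not_linearIndependent_of_infinite (R := Ω)
    (fun t : ℕ => (⟨_, h2 t⟩ : G.R a)) (LinearIndependent.of_comp (G.R a).subtype
      (Geo.fibre_indep O hO (w := fun t => ρ (r t) * G.ι (S.v j) ^ t * G.X j ^ a) (fun t => ?_)
        fun t t' e => ?_))
  · refine mul_ne_zero (mul_ne_zero (fun e => ?_) (pow_ne_zero _ h3)) (pow_ne_zero _ (G.X_ne j))
    simpa [e] using h1 t
  · simp only [map_mul, h1, one_mul, mul_left_inj' h4] at e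
    rw [map_pow, map_pow] at e
    exact pow_right_injective₀ (zero_lt_iff.2 ((map_ne_zero _).2 h3)) hne e

theorem R_le_Bd (a : ℕ) : G.R a ≤ DB.Bd Ω G.X a := by
  intro w hw O c h1 _ _ h4
  obtain ⟨j, -, hj⟩ := Finset.univ.exists_max_image (fun l => O.valuation (G.X l))
    ⟨S.i₀, Finset.mem_univ _⟩
  have hx : ∀ l, G.X l / G.X j ∈ O := fun l => (O.valuation_le_one_iff _).1 (by
    rw [map_div₀]
    exact div_le_one_of_le₀ (hj l (Finset.mem_univ _)) zero_le)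
  have h5 : ∀ f ∈ G.C j, f ∈ O := fun f hf => by
    induction hf using Algebra.adjoin_induction with
    | mem z hz =>
      obtain ⟨_ | l, rfl⟩ := hz
      · exact (O.valuation_le_one_iff _).1 (G.v_unit O h1 j hx).le
      · simpa only [gen_eq] using hx l
    | algebraMap c => exact h1 c
    | add a b _ _ ha hb => exact add_mem ha hb
    | mul a b _ _ ha hb => exact mul_mem ha hb
  have h6 := mul_mem (h5 _ (div_mem_C hw j)) (pow_mem (h4 j) a)
  rwa [div_pow, div_mul_div_cancel₀ (pow_ne_zero _ (G.X_ne j))] at h6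

/-- The order of vanishing of a section at a point is bounded by a multiple of its degree. -/
theorem bl [IsAlgClosed Ω] : ∃ δ : ℕ, ∀ (ev : G.C S.i₀ →ₐ[Ω] Ω) (a μ : ℕ) (f : loc (G.C S.i₀) ev),
    (f : E) ∈ G.R a → (f : E) ≠ 0 → f ∈ RingHom.ker (evL ev) ^ μ → μ ≤ δ * a := by
  have : CharZero Ω := charZero_of_injective_algebraMap (algebraMap ℂ Ω).injective
  have hB : ∀ f ∈ G.C S.i₀, ∃ c, f ∈ DB.Bd Ω G.X c := fun f hf => by
    obtain ⟨N, hN⟩ := G.homog hf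
    exact ⟨N, G.R_le_Bd N (by simpa only [G.X_one, one_pow, one_mul] using hN N le_rfl)⟩
  obtain ⟨φ, hφ⟩ := G.trdeg_E
  obtain ⟨l, h1, h2, h3, h4, -⟩ := DB.gcd G.X (fun o => G.ι (S.gen S.i₀ o))
    (fun o => hB _ (Algebra.subset_adjoin ⟨o, rfl⟩)) (G.gen_E S.i₀) hφ
  have h5 : Submodule.span Ω (Set.range G.X) ≤ Subalgebra.toSubmodule (G.C S.i₀) := by
    refine Submodule.span_le.2 ?_
    rintro _ ⟨i, rfl⟩
    exact Algebra.subset_adjoin ⟨some i, (G.gen_eq _ i).trans (by rw [X_one, div_one])⟩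
  refine ⟨Module.finrank (IntermediateField.adjoin Ω (Set.range l)) E ^ 2,
    fun ev a μ f hw h0 hμ => ?_⟩
  have h6 : (f : E) ∈ G.C S.i₀ := by simpa only [G.X_one, one_pow, div_one] using div_mem_C hw S.i₀
  obtain ⟨p, hp, hd, hO⟩ := DB.kl_norm l h2.1 (DB.Bd_le_Bd _ l h3 a (G.R_le_Bd a hw)) h0
  obtain ⟨h, k1, g, k2, k3⟩ := pow_ker hμ
  have k4 : h * ⟨_, h6⟩ = g := Subtype.ext k3
  have k5 := bl0 l h2.1 (G.C S.i₀) (fun i => h5 (h1 i)) (fun f hf => by
    obtain ⟨c, hc⟩ := hB f hf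
    exact DB.isIntegral_of_Bd l (DB.Bd_le_Bd _ l h3 c hc)) ev hp (f := ⟨_, h6⟩)
    (Geo.bl_int l hO) (mul_div_cancel₀ _ h0).symm k1 (k4 ▸ k2)
  refine k5.trans ((Nat.mul_le_mul_right _ hd).trans (le_of_eq ?_))
  ring

/-- A section that vanishes to high order at a generic point of `W` on the subvariety vanishes on
the subvariety. -/
theorem jet_zero [IsAlgClosed Ω] (e : M →ₐ[ℂ] Ω) (he : ∀ s, evT Ω G.ι s = 0 → evT Ω e s = 0) :
    ∃ c : ℕ, ∀ a, 0 < a → ∀ s ∈ (S.U a).baseChange Ω,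
      s ∈ Jet (RD ℂ Ω M) (RingHom.ker (evT Ω e)) (c * a) → evT Ω G.ι s = 0 := by
  obtain ⟨δ, hδ⟩ := G.bl
  have hle : G.C S.i₀ ≤ (evT Ω G.ι).range := Algebra.adjoin_le (by
    rintro _ ⟨o, rfl⟩
    exact ⟨1 ⊗ₜ S.gen S.i₀ o, by simp⟩)
  let ev : G.C S.i₀ →ₐ[Ω] Ω := (AlgHom.liftOfSurjective (evT Ω G.ι).rangeRestrict
    (evT Ω G.ι).rangeRestrict_surjective (evT Ω e) fun s hs =>
      he s (congrArg Subtype.val hs)).comp (Subalgebra.inclusion hle)
  have hev : ∀ (f : M) (h : f ∈ S.B S.i₀), ev ⟨G.ι f, G.ι_mem_C h⟩ = e f := fun f h => by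
    have e1 : Subalgebra.inclusion hle ⟨G.ι f, G.ι_mem_C h⟩ =
        (evT Ω G.ι).rangeRestrict (1 ⊗ₜ f) :=
      Subtype.ext (show G.ι f = evT Ω G.ι (1 ⊗ₜ f) by simp)
    rw [AlgHom.comp_apply, e1, AlgHom.liftOfSurjective_apply]
    simp
  have hq : ∀ f : M, ∃ h, ∃ hh : h ∈ S.B S.i₀, ev ⟨_, G.ι_mem_C hh⟩ ≠ 0 ∧ h * f ∈ S.B S.i₀ := by
    intro f
    have := S.frac_B S.i₀
    obtain ⟨g, h, h0, rfl⟩ := IsFractionRing.div_surjective (S.B S.i₀) f
    have h1 : (h : M) ≠ 0 := fun e1 => nonZeroDivisors.ne_zero h0 (Subtype.ext e1)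
    refine ⟨h, h.2, hev _ h.2 ▸ (map_ne_zero e).2 h1, ?_⟩
    rw [show (h : M) * (algebraMap _ M g / algebraMap _ M h) = g from mul_div_cancel₀ _ h1]
    exact g.2
  let ψ : (⊤ : Subalgebra ℂ M) →ₐ[ℂ] loc (G.C S.i₀) ev :=
    (G.ι.comp (Subalgebra.val _)).codRestrict ((loc (G.C S.i₀) ev).restrictScalars ℂ) fun f => by
      obtain ⟨h, h1, h2, h3⟩ := hq f
      have h4 := G.ι_mem_C h3
      rw [map_mul] at h4
      exact ⟨_, h2, h4⟩
  have hψ : ∀ f, evL ev (ψ f) = e f := fun f => by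
    obtain ⟨h, h1, h2, h3⟩ := hq f
    refine mul_left_cancel₀ h2 ?_
    rw [evL_mul (ψ f) (g := ⟨_, G.ι_mem_C h3⟩) (map_mul G.ι h f).symm, hev _ h3, hev _ h1, map_mul]
  let inc : Ω ⊗[ℂ] (⊤ : Subalgebra ℂ M) →ₐ[Ω] Ω ⊗[ℂ] M :=
    Algebra.TensorProduct.map (AlgHom.id Ω Ω) (Subalgebra.val _)
  have h1 : ∀ s, (evT Ω ψ s : E) = evT Ω G.ι (inc s) ∧
      evL ev (evT Ω ψ s) = evT Ω (e.comp (Subalgebra.val _)) s ∧
      evT Ω (e.comp (Subalgebra.val _)) s = evT Ω e (inc s) ∧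
      ∀ c, rder (S.Dref c) (inc s) =
        inc (rder (res (S.Dref c) _ (S.frame_ref.coo_top.pres c)) s) := fun s => by
    induction s with
    | zero => simp
    | add s t hs ht =>
      refine ⟨?_, ?_, ?_, fun c => ?_⟩
      · rw [map_add, map_add, map_add, ← hs.1, ← ht.1]
        rfl
      · simp only [map_add, hs.2.1, ht.2.1]
      · simp only [map_add, hs.2.2.1, ht.2.2.1]
      · simp only [map_add, hs.2.2.2, ht.2.2.2]
    | tmul c f =>
      exact ⟨rfl, by rw [evT_tmul, evT_tmul, map_mul, AlgHom.commutes, hψ]; rfl, rfl, fun _ => rfl⟩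
  have h2 : ∀ s, ∃ s₀, inc s₀ = s := fun s => by
    induction s with
    | zero => exact ⟨0, map_zero _⟩
    | add s t hs ht =>
      obtain ⟨s, rfl⟩ := hs
      obtain ⟨t, rfl⟩ := ht
      exact ⟨s + t, map_add _ _ _⟩
    | tmul c f => exact ⟨c ⊗ₜ ⟨f, trivial⟩, rfl⟩
  refine ⟨δ + 1, fun a ha s s1 s2 => by_contra fun h0 => ?_⟩
  obtain ⟨s, rfl⟩ := h2 s
  have h3 := jet_tensor S.frame_ref.coo_top (e.comp (Subalgebra.val _)) _
    (Jet_comap inc (by
      rintro _ ⟨c, rfl⟩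
      exact ⟨_, ⟨S.Dref c, rfl⟩, fun t => (h1 t).2.2.2 c⟩) (fun t ht => (h1 t).2.2.1.trans ht) s2)
  have h4 : RingHom.ker (evT Ω (e.comp (Subalgebra.val ⊤))) ≤
      (RingHom.ker (evL ev)).comap (evT Ω ψ) := fun u hu => (h1 u).2.1.trans hu
  have h5 := hδ ev a _ (evT Ω ψ s) (by
    rw [(h1 s).1, R, ← map_baseChange]
    exact ⟨_, s1, rfl⟩) ((h1 s).1 ▸ h0)
    (((Ideal.pow_right_mono h4 _).trans (Ideal.le_comap_pow _ _)) h3)
  have h6 := Nat.le_of_mul_le_mul_right h5 ha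
  omega

end Pre

/-- A prime below a generic point modulo which the sections have finite rank contains the sections
that vanish to high order at the point. -/
theorem Su.jet_mem [IsScalarTower ℂ K M] [Fintype ι] (S : Su K M ι n) {Ω : Type} [Field Ω]
    [Algebra ℂ Ω] [IsAlgClosed Ω] (Q : Ideal (Ω ⊗[ℂ] M)) [Q.IsPrime]
    (hQ : ∀ a, 0 < a → Module.Finite Ω (((S.U a).baseChange Ω).map
      (IsScalarTower.toAlgHom Ω (Ω ⊗[ℂ] M) Q.ResidueField).toLinearMap))
    (e : M →ₐ[ℂ] Ω) (he : Q ≤ RingHom.ker (evT Ω e)) :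
    ∃ c : ℕ, ∀ a, 0 < a → ∀ s ∈ (S.U a).baseChange Ω,
      s ∈ Jet (RD ℂ Ω M) (RingHom.ker (evT Ω e)) (c * a) → s ∈ Q := by
  let π := IsScalarTower.toAlgHom Ω (Ω ⊗[ℂ] M) Q.ResidueField
  have hπ : ∀ s, π s = 0 ↔ s ∈ Q := fun s => Ideal.algebraMap_residueField_eq_zero
  let ι' : M →ₐ[ℂ] Q.ResidueField :=
    (π.restrictScalars ℂ).comp Algebra.TensorProduct.includeRight
  have h : evT Ω ι' = π := Algebra.TensorProduct.ext (Subsingleton.elim _ _)
    (AlgHom.ext fun f => (evT_tmul Ω ι' 1 f).trans (by rw [map_one, one_mul]))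
  let G : Pre S Ω Q.ResidueField := ⟨ι', fun z => by
    obtain ⟨s, t, ht, rfl⟩ := IsFractionRing.div_surjective (A := (Ω ⊗[ℂ] M) ⧸ Q) z
    obtain ⟨s, rfl⟩ := Ideal.Quotient.mk_surjective s
    obtain ⟨t, rfl⟩ := Ideal.Quotient.mk_surjective t
    have h1 : π t ≠ 0 := fun h2 => nonZeroDivisors.ne_zero ht
      (Ideal.Quotient.eq_zero_iff_mem.2 ((hπ t).1 h2))
    rw [h]
    exact ⟨s, t, h1, div_mul_cancel₀ _ h1⟩, h ▸ hQ⟩
  obtain ⟨c, hc⟩ := G.jet_zero e fun s hs => he ((hπ s).1 (h ▸ hs))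
  exact ⟨c, fun a ha s s1 s2 => (hπ s).1 (h ▸ hc a ha s s1 s2)⟩

end

end Pool.Agent.Lib.MP_bc213e_ag.DD
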