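import Pool.Agent.Lib.MP_bc213e_ag.DL.ZMT

/-! The fibration is regular at the points of the general fibre. -/

namespace Pool.Agent.Lib.MP_bc213e_ag.DD.Geo

open Pool.Agent.Lib.MP_bc213e_ag.DL
open scoped TensorProduct

variable {K M ι : Type} [Field K] [Algebra ℂ K] [Field M] [Algebra ℂ M] [Algebra K M] {n : ℕ}
  {S : Su K M ι n} {Ω E : Type} [Field Ω] [Algebra ℂ Ω] [Field E] [Algebra ℂ E] [Algebra Ω E]
  [IsScalarTower ℂ Ω E] {b φ : ℕ} (G : Geo S Ω E b φ)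

theorem exists_ev (j : ι) (A : Subalgebra ℂ M) (hB : S.B j ≤ A) (hk : ∀ y ∈ G.k, y ∈ A)
    (ψ : A →ₐ[ℂ] Ω) (hψ : ∀ y : A, (y : M) ∈ G.k → ψ y = G.e y) :
    ∃ ev : G.C j →ₐ[Ω] Ω, ∀ f : S.B j, G.ez ev f = ψ ⟨f, hB f.2⟩ := by
  let Φ : Ω ⊗[ℂ] A →ₐ[Ω] E := evT Ω (G.ι.comp A.val)
  have hΦ : ∀ f : A, Φ (1 ⊗ₜ f) = G.ι f := fun f => by
    change algebraMap Ω E 1 * G.ι f = _
    rw [map_one, one_mul]
  have hle : G.C j ≤ Φ.range := by
    refine Algebra.adjoin_le ?_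
    rintro _ ⟨o, rfl⟩
    exact ⟨1 ⊗ₜ ⟨_, hB (S.gen_mem j o)⟩, hΦ _⟩
  have hker : RingHom.ker Φ.rangeRestrict.toRingHom ≤ RingHom.ker (evT Ω ψ).toRingHom :=
    fun s hs => G.toFib.ev_of_ext A hk ψ hψ (congrArg Subtype.val hs)
  refine ⟨(AlgHom.liftOfSurjective Φ.rangeRestrict Φ.rangeRestrict_surjective (evT Ω ψ)
    hker).comp (Subalgebra.inclusion hle), fun f => ?_⟩
  have e : Subalgebra.inclusion hle ⟨G.ι f, G.ι_mem_C f.2⟩ =
      Φ.rangeRestrict (1 ⊗ₜ ⟨f, hB f.2⟩) := Subtype.ext (hΦ ⟨f, hB f.2⟩).symm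
  rw [ez_apply, AlgHom.comp_apply, e, AlgHom.liftOfSurjective_apply, evT_tmul, map_one, one_mul]

theorem pt_k_le (V : ValuationSubring M)
    (hy : ∀ P : MvPolynomial (Fin b) ℂ, P ≠ 0 → V.valuation (MvPolynomial.aeval G.y P) = 1)
    {f : M} (hf : f ∈ G.k) : f ∈ V := by
  have h1 : ∀ c : Algebra.adjoin ℂ (Set.range G.y), c ≠ 0 → V.valuation c = 1 := fun c hc => by
    obtain ⟨P, hP⟩ : (c : M) ∈ (MvPolynomial.aeval G.y : MvPolynomial (Fin b) ℂ →ₐ[ℂ] M).range :=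
      Algebra.adjoin_range_eq_range_aeval ℂ G.y ▸ c.2
    have hP' : MvPolynomial.aeval G.y P = (c : M) := hP
    rw [← hP']
    refine hy P fun h0 => hc (Subtype.ext ?_)
    rw [← hP', h0, map_zero]
    rfl
  have h2 : ∀ c : Algebra.adjoin ℂ (Set.range G.y), (c : M) ∈ V := fun c => by
    by_cases hc : c = 0
    · rw [hc]
      exact V.zero_mem
    · exact (V.valuation_le_one_iff _).1 (h1 c hc).le
  obtain ⟨c, hc, hint⟩ := (G.y_alg f hf).exists_integral_multiple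
  let ρ : Algebra.adjoin ℂ (Set.range G.y) →+* V :=
    (Algebra.adjoin ℂ (Set.range G.y)).val.toRingHom.codRestrict V.toSubring h2
  have h3 : IsIntegral V (c • f) := by
    have := hint.map_of_comp_eq ρ (RingHom.id M) rfl
    exact this
  obtain ⟨z, hz⟩ := (IsIntegrallyClosed.isIntegral_iff (R := V) (K := M)).1 h3
  have h4 : V.valuation ((c : M) * f) ≤ 1 := by
    have h5 : (z : M) = (c : M) * f := hz
    rw [← h5]
    exact V.valuation_le_one z
  rw [map_mul, h1 c hc, one_mul] at h4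
  exact (V.valuation_le_one_iff _).1 h4

variable [IsScalarTower ℂ K M] [Fintype ι] [IsAlgClosed Ω]

/-- A valuation that is trivial on `ℂ [y]` defines a point of the fibre. -/
theorem exists_pt (j : ι) (V : ValuationSubring M) (hB : ∀ f ∈ S.B j, f ∈ V)
    (hy : ∀ P : MvPolynomial (Fin b) ℂ, P ≠ 0 → V.valuation (MvPolynomial.aeval G.y P) = 1) :
    ∃ (A : Subalgebra ℂ M) (ψ : A →ₐ[ℂ] Ω), S.B j ≤ A ∧ (∀ y ∈ G.k, y ∈ A) ∧
      (∀ y : A, (y : M) ∈ G.k → ψ y = G.e y) ∧ ∀ f : A, ψ f = 0 ↔ V.valuation f < 1 := by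
  let A : Subalgebra G.k M := Algebra.adjoin G.k (Set.range (S.gen j))
  have hAV : ∀ f ∈ A, f ∈ V := fun f hf => by
    induction hf using Algebra.adjoin_induction with
    | mem x hx => exact hB x (Algebra.subset_adjoin hx)
    | algebraMap r => exact G.pt_k_le V hy r.2
    | add x y _ _ hx hy => exact add_mem hx hy
    | mul x y _ _ hx hy => exact mul_mem hx hy
  let ρ : A →+* V := A.val.toRingHom.codRestrict V.toSubring fun f => hAV f f.2
  let q : Ideal A := (IsLocalRing.maximalIdeal V).comap ρ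
  have hq : q.IsPrime := Ideal.comap_isPrime _ _
  have hA : Algebra.FiniteType G.k A :=
    (Subalgebra.fg_iff_finiteType A).1 (Subalgebra.fg_def.2 ⟨_, Set.finite_range _, rfl⟩)
  have hF : Algebra.EssFiniteType G.k q.ResidueField := .comp _ A _
  let : Algebra G.k Ω := (G.e.comp G.k.val).toRingHom.toAlgebra
  have : IsScalarTower ℂ G.k Ω := .of_algebraMap_eq fun r => ((G.e.comp G.k.val).commutes r).symm
  have : FinTrdeg ℂ G.k := FinTrdeg.of_trdeg (by rw [G.trdeg_k]; exact Cardinal.natCast_lt_aleph0)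
  obtain ⟨θ⟩ := DA.emb_of_trdeg (k := G.k) (F := q.ResidueField) (Ω := Ω)
    ((trdeg_lt_aleph0 G.k q.ResidueField).le.trans
      (G.univ.trans (DA.trdeg_eq_of_fin (k := ℂ) (F := G.k) G.univ).ge))
  let ψ : A →ₐ[G.k] Ω := θ.comp (IsScalarTower.toAlgHom G.k A q.ResidueField)
  have hψ : ∀ y : A, (y : M) ∈ G.k → ψ y = G.e y := fun y hy =>
    (congrArg ψ (show y = algebraMap G.k A ⟨y, hy⟩ from rfl)).trans (ψ.commutes _)
  refine ⟨A.restrictScalars ℂ,
    { toFun := fun f => ψ ⟨f, f.2⟩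
      map_one' := map_one ψ
      map_zero' := map_zero ψ
      map_mul' := fun f g => map_mul ψ ⟨f, f.2⟩ ⟨g, g.2⟩
      map_add' := fun f g => map_add ψ ⟨f, f.2⟩ ⟨g, g.2⟩
      commutes' := fun c => (hψ _ (G.k.algebraMap_mem c)).trans (G.e.commutes c) },
    Algebra.adjoin_le fun x hx => Algebra.subset_adjoin (R := G.k) hx,
    fun y hy => A.algebraMap_mem ⟨y, hy⟩, fun y hy => hψ ⟨y, y.2⟩ hy, fun f => ?_⟩
  change θ (algebraMap A q.ResidueField ⟨f, f.2⟩) = 0 ↔ _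
  rw [map_eq_zero, Ideal.algebraMap_residueField_eq_zero, Ideal.mem_comap,
    ValuationSubring.valuation_lt_one_iff]
  rfl

/-- The ring generated by the chart ring and the coordinates of the base. -/
abbrev pt_C (j : ι) : Subalgebra (S.B j) M := Algebra.adjoin (S.B j) (Set.range G.y)

omit [IsScalarTower ℂ K M] [Fintype ι] [IsAlgClosed Ω] in
theorem pt_aeval_mem (j : ι) (P : MvPolynomial (Fin b) ℂ) :
    MvPolynomial.aeval G.y P ∈ G.pt_C j := by
  have h : Algebra.adjoin ℂ (Set.range G.y) ≤ (G.pt_C j).restrictScalars ℂ :=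
    Algebra.adjoin_le fun x hx => Algebra.subset_adjoin (R := S.B j) hx
  exact h (Algebra.adjoin_range_eq_range_aeval ℂ G.y ▸ ⟨P, rfl⟩)

/-- Every prime that meets `ℂ [y]` trivially has algebraic residue field over the chart ring. -/
theorem pt_alg {j : ι} (hi : ∀ (ev : G.C j →ₐ[Ω] Ω) (d : Derivation ℂ Ω Ω),
      (∀ f, d (G.ez ev f) = 0) → ∀ i, d (G.e (G.y i)) = 0) (q : Ideal (G.pt_C j)) [q.IsPrime]
    (hq : ∀ P : MvPolynomial (Fin b) ℂ, P ≠ 0 →
      (⟨_, G.pt_aeval_mem j P⟩ : G.pt_C j) ∉ q) (s : G.pt_C j) :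
    ∃ P : Polynomial (S.B j), P.map (Ideal.Quotient.mk (q.under (S.B j))) ≠ 0 ∧
      Polynomial.aeval s P ∈ q := by
  obtain ⟨V, hV, hV'⟩ := exists_val (IsScalarTower.toAlgHom (S.B j) (G.pt_C j) q.ResidueField)
  have hVq : ∀ f : G.pt_C j, V.valuation f < 1 ↔ f ∈ q := fun f =>
    (hV' f).trans Ideal.algebraMap_residueField_eq_zero
  obtain ⟨A, ψ, hB, hk, hψ, hψ'⟩ := G.exists_pt j V
    (fun f hf => hV f ((G.pt_C j).algebraMap_mem ⟨f, hf⟩)) fun P hP =>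
      le_antisymm ((V.valuation_le_one_iff _).2 (hV _ (G.pt_aeval_mem j P)))
        (not_lt.1 fun h => hq P hP ((hVq ⟨_, G.pt_aeval_mem j P⟩).1 h))
  obtain ⟨ev, hev⟩ := G.exists_ev j A hB hk ψ hψ
  have hle : ∀ f ∈ G.pt_C j, f ∈ A := fun f hf => by
    induction hf using Algebra.adjoin_induction with
    | mem x hx =>
      obtain ⟨i, rfl⟩ := hx
      exact hk _ (G.y_mem i)
    | algebraMap r => exact hB r.2
    | add x y _ _ hx hy => exact add_mem hx hy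
    | mul x y _ _ hx hy => exact mul_mem hx hy
  let χ : G.pt_C j →+* Ω := ψ.toRingHom.comp
    ((G.pt_C j).val.toRingHom.codRestrict A.toSubring fun f => hle f f.2)
  have hχ : ∀ f, χ f = 0 ↔ f ∈ q := fun f => (hψ' ⟨f, hle f f.2⟩).trans (hVq f)
  have hχB : ∀ r : S.B j, χ (algebraMap _ _ r) = G.ez ev r := fun r => (hev r).symm
  have halg : ∀ (f : M) (hf : f ∈ G.pt_C j), IsAlgebraic (G.ez ev).range (χ ⟨f, hf⟩) := by
    intro f hf
    induction hf using Algebra.adjoin_induction with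
    | mem x hx =>
      obtain ⟨i, rfl⟩ := hx
      have e : χ ⟨G.y i, Algebra.subset_adjoin ⟨i, rfl⟩⟩ = G.e (G.y i) :=
        hψ ⟨_, hk _ (G.y_mem i)⟩ (G.y_mem i)
      rw [e]
      refine alg_of_der _ fun d hd => hi ev d (fun f => hd _ ⟨f, rfl⟩) i
    | algebraMap r =>
      have e : χ ⟨algebraMap _ M r, (G.pt_C j).algebraMap_mem r⟩ =
        algebraMap (G.ez ev).range Ω ⟨_, r, rfl⟩ := hχB r
      rw [e]
      exact isAlgebraic_algebraMap _
    | add x y kx ky hx hy => exact (map_add χ ⟨x, kx⟩ ⟨y, ky⟩).symm ▸ hx.add hy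
    | mul x y kx ky hx hy => exact (map_mul χ ⟨x, kx⟩ ⟨y, ky⟩).symm ▸ hx.mul hy
  obtain ⟨p, hp, hp'⟩ := halg s s.2
  obtain ⟨P, rfl⟩ := Polynomial.map_surjective (G.ez ev).rangeRestrict.toRingHom
    (G.ez ev).rangeRestrict_surjective p
  refine ⟨P, fun h0 => hp ?_, (hχ _).1 ?_⟩
  · ext i
    have h1 := congrArg (fun p => Polynomial.coeff p i) h0
    simp only [Polynomial.coeff_map, Polynomial.coeff_zero, Ideal.Quotient.eq_zero_iff_mem] at h1
    have h2 := (hχ _).2 (Ideal.mem_comap.1 h1)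
    rw [hχB] at h2
    rw [Polynomial.coeff_map, Polynomial.coeff_zero]
    exact h2
  · rw [Polynomial.aeval_def, Polynomial.hom_eval₂]
    rw [Polynomial.aeval_def, Polynomial.eval₂_map] at hp'
    rw [← hp']
    congr 1
    exact RingHom.ext hχB

theorem y_mem_Oz {j : ι} (hi : ∀ (ev : G.C j →ₐ[Ω] Ω) (d : Derivation ℂ Ω Ω),
      (∀ f, d (G.ez ev f) = 0) → ∀ i, d (G.e (G.y i)) = 0) (ev : G.C j →ₐ[Ω] Ω) (i : Fin b) :
    G.y i ∈ G.Oz ev := by
  have hk : ∀ f ∈ G.k, G.ι f ∈ G.C j := fun f hf => by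
    rw [G.toFib.ι_k hf]
    exact (G.C j).algebraMap_mem _
  have hC : ∀ f ∈ G.pt_C j, G.ι f ∈ G.C j := fun f hf => by
    induction hf using Algebra.adjoin_induction with
    | mem x hx =>
      obtain ⟨i, rfl⟩ := hx
      exact hk _ (G.y_mem i)
    | algebraMap r => exact G.ι_mem_C r.2
    | add x y _ _ hx hy => rw [map_add]; exact add_mem hx hy
    | mul x y _ _ hx hy => rw [map_mul]; exact mul_mem hx hy
  let χ : G.pt_C j →+* Ω := ev.toRingHom.comp
    ((G.ι.toRingHom.comp (G.pt_C j).val.toRingHom).codRestrict (G.C j).toSubring fun f => hC f f.2)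
  have hχk : ∀ f : G.pt_C j, (f : M) ∈ G.k → χ f = G.e f := fun f hf =>
    (congrArg ev (show (⟨G.ι f, hC f f.2⟩ : G.C j) = algebraMap Ω _ (G.e f) from
      Subtype.ext (G.toFib.ι_k hf))).trans (ev.commutes _)
  have hP : ∀ P : MvPolynomial (Fin b) ℂ, P ≠ 0 → χ ⟨_, G.pt_aeval_mem j P⟩ ≠ 0 := fun P hP => by
    have h1 : Algebra.adjoin ℂ (Set.range G.y) ≤ G.k.toSubalgebra := by
      refine Algebra.adjoin_le ?_
      rintro _ ⟨i, rfl⟩
      exact G.y_mem i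
    rw [hχk _ (h1 (Algebra.adjoin_range_eq_range_aeval ℂ G.y ▸ ⟨P, rfl⟩)), map_ne_zero]
    exact fun h => hP (G.y_ind (h.trans (map_zero _).symm))
  have hq : (RingHom.ker χ).IsPrime := RingHom.ker_isPrime χ
  have : Algebra.FiniteType (S.B j) (G.pt_C j) :=
    (Subalgebra.fg_iff_finiteType _).1 (Subalgebra.fg_def.2 ⟨_, Set.finite_range _, rfl⟩)
  have := S.noeth_B j
  have : IsNoetherianRing (G.pt_C j) := Algebra.FiniteType.isNoetherianRing (S.B j) _
  obtain ⟨r, hr, hr1, hr2⟩ := zmt (R := S.B j) (RingHom.ker χ) fun q' _ hle _ s =>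
    G.pt_alg hi q' (fun P h0 h1 => hP P h0 (hle h1)) s
  obtain ⟨m, hm⟩ := hr2 ⟨G.y i, Algebra.subset_adjoin ⟨i, rfl⟩⟩
  have := S.frac_B j
  have := S.norm_B j
  have hint : ∀ f : G.pt_C j, IsIntegral (S.B j) f → (f : M) ∈ S.B j := fun f hf => by
    obtain ⟨z, hz⟩ := (IsIntegrallyClosed.isIntegral_iff (R := S.B j) (K := M)).1
      (hf.map (G.pt_C j).val)
    exact (show (z : M) = f from hz) ▸ z.2
  refine ⟨⟨r, hint r hr1⟩ ^ m, ?_, hint _ hm⟩
  rw [map_pow]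
  exact pow_ne_zero _ hr

end Pool.Agent.Lib.MP_bc213e_ag.DD.Geo
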