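import Pool.Agent.Lib.MP_bc213e_ag.DL.Lin
import Pool.Agent.Lib.MP_bc213e_ag.DL.Cot
import Pool.Agent.Lib.MP_bc213e_ag.DL.Move
import Pool.Agent.Lib.MP_bc213e_ag.DL.Pt

/-! The fibration is log smooth at the points of the general fibre. -/

namespace Pool.Agent.Lib.MP_bc213e_ag.DD

open Pool.Agent.Lib.MP_bc213e_ag.Hyp Pool.Agent.Lib.MP_bc213e_ag.DL

variable {K M ι : Type} [Field K] [Algebra ℂ K] [Field M] [Algebra ℂ M] [Algebra K M] {n : ℕ}

/-- Log smooth coordinates on the open set `s r ≠ 0` of the chart `j`. -/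
structure Su.Lg (S : Su K M ι n) (j : ι) where
  ζ : Fin n → chart S.x j
  d : Fin n → ℕ
  s : chart S.x j
  r : chart S.x j
  lt : ∀ i, d i < S.m
  cot : ∀ f, s • KaehlerDifferential.D ℂ (chart S.x j) f ∈ Submodule.span (chart S.x j)
    (Set.range fun l => KaehlerDifferential.D ℂ (chart S.x j) (ζ l))
  form : (r : K) * jac S.D (fun l => (ζ l : K)) ^ S.m = s * S.g j * ∏ l, (ζ l : K) ^ d l

namespace Geo

variable {S : Su K M ι n} {Ω E : Type} [Field Ω] [Algebra ℂ Ω] [Field E] [Algebra ℂ E] [Algebra Ω E]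
  [IsScalarTower ℂ Ω E] {b φ : ℕ} (G : Geo S Ω E b φ) [IsScalarTower ℂ K M] [Fintype ι]
  [IsAlgClosed Ω]

theorem dim_pt {j : ι} (ev : G.C j →ₐ[Ω] Ω) : (b : Cardinal) ≤
    Algebra.trdeg ℂ (chart S.x j ⧸ RingHom.ker ((G.ez ev).comp (S.inB j))) + 1 := by
  refine dim_le _ (G.ez ev ⟨_, S.v_mem j⟩) G.ey_ind fun i =>
    alg_of_der _ fun d hd => G.kill ev d (fun f => hd _ ?_) (G.y_mem i)
  have hB : S.B j ≤ ((Algebra.adjoin ℂ (insert (G.ez ev ⟨_, S.v_mem j⟩)
      (Set.range ((G.ez ev).comp (S.inB j))))).comap (G.ez ev)).map (S.B j).val := by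
    refine Algebra.adjoin_le ?_
    rintro _ ⟨o, rfl⟩
    cases o with
    | none => exact ⟨⟨_, S.v_mem j⟩, Algebra.subset_adjoin (Set.mem_insert _ _), rfl⟩
    | some l =>
      exact ⟨_, Algebra.subset_adjoin (Set.mem_insert_of_mem _ ⟨_, rfl⟩), (S.gen_some j l).symm⟩
  obtain ⟨z, hz, e⟩ := hB f.2
  rwa [← show z = f from Subtype.ext e]

theorem exists_unif (hb : S.d₀ + 2 ≤ b) :
    ∃ e, ∀ (j : ι) (ev : G.C j →ₐ[Ω] Ω), ∃ L : S.Lg j, G.ez ev (S.inB j (L.s * L.r)) ≠ 0 ∧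
      ∀ o, S.X j ^ e * S.crd j L.ζ o ∈ S.U e := by
  have key : ∀ j, ∃ e, ∀ ev : G.C j →ₐ[Ω] Ω, ∃ L : S.Lg j, G.ez ev (S.inB j (L.s * L.r)) ≠ 0 ∧
      ∀ o a, e ≤ a → S.X j ^ a * S.crd j L.ζ o ∈ S.U a := fun j => by
    let w : S.Lg j → G.C j := fun L => ⟨_, G.ι_mem_C (S.inB j (L.s * L.r)).2⟩
    have h1 := G.null j (T := Set.range fun L => (w L : E)) (by
      rintro _ ⟨L, rfl⟩
      exact (w L).2) fun ev => by
      have hp := RingHom.ker_isPrime ((G.ez ev).comp (S.inB j))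
      obtain ⟨ζ, d, s, r, r', h1, h2, h2', h3, h4, h5⟩ := S.klt j _ hp (not_le.1 fun h => by
        have h1 : (b : Cardinal) ≤ (S.d₀ + 1 : ℕ) := by
          rw [Nat.cast_succ]
          exact (G.dim_pt ev).trans (by gcongr)
        have h2 := Nat.cast_le.1 h1
        omega)
      refine ⟨w ⟨ζ, d, r' * s, s * r, h3, fun f => ?_, ?_⟩, ⟨_, rfl⟩,
        hp.mul_notMem (hp.mul_notMem h2' h1) (hp.mul_notMem h1 h2)⟩
      · rw [mul_smul]
        exact Submodule.smul_mem _ _ (h4 _)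
      · rw [MulMemClass.coe_mul, MulMemClass.coe_mul, mul_assoc, h5]
        ring
    obtain ⟨c, hc⟩ := Finsupp.mem_span_range_iff_exists_finsupp.1 h1
    choose N hN using fun (L : S.Lg j) o => S.homog (S.crd_mem j L.ζ o)
    refine ⟨c.support.sup fun L => Finset.univ.sup (N L), fun ev => ?_⟩
    have h2 : ∑ L ∈ c.support, c L * w L = 1 := Subtype.ext (by
      rw [AddSubmonoidClass.coe_finsetSum]
      exact hc)
    have h3 := congrArg ev h2
    rw [map_sum, map_one] at h3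
    obtain ⟨L, hL, h4⟩ := Finset.exists_ne_zero_of_sum_ne_zero (h3.trans_ne one_ne_zero)
    rw [map_mul] at h4
    exact ⟨L, right_ne_zero_of_mul h4, fun o a ha => hN L o a
      (((Finset.le_sup (f := N L) (Finset.mem_univ o)).trans
        (Finset.le_sup (f := fun L => Finset.univ.sup (N L)) hL)).trans ha)⟩
  choose e he using key
  refine ⟨Finset.univ.sup e, fun j ev => ?_⟩
  obtain ⟨L, h1, h2⟩ := he j ev
  exact ⟨L, h1, fun o => h2 o _ (Finset.le_sup (Finset.mem_univ j))⟩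

theorem exists_coo_y {j : ι} (ev : G.C j →ₐ[Ω] Ω) (L : S.Lg j)
    (hL : G.ez ev (S.inB j (L.s * L.r)) ≠ 0) :
    ∃ (σ : Fin φ → Option (Fin n)) (D : Fin b ⊕ Fin φ → Derivation ℂ M M) (dd : Fin φ →₀ ℕ)
      (mu1 : M), Coo (G.Oz ev) (Sum.elim G.y (S.crd j L.ζ ∘ σ)) D ∧ (∀ c, dd c < S.m) ∧
      (∀ c, dd c ≠ 0 → G.ez ev ⟨_, S.crd_mem j L.ζ (σ c)⟩ = 0) ∧ mu1 ≠ 0 ∧ mu1 ∈ G.Oz ev ∧
      mu1⁻¹ ∈ G.Oz ev ∧ S.mu (Sum.elim G.y (S.crd j L.ζ ∘ σ) ∘ G.ε) =
        mu1 * ∏ c, (S.crd j L.ζ ∘ σ) c ^ dd c := by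
  classical
  rw [map_mul, map_mul] at hL
  obtain ⟨D, hD⟩ := S.coo_of_cot j (G.ez ev) L.ζ L.s (left_ne_zero_of_mul hL) L.cot
  have hy := G.y_mem_Oz (fun ev d hd i => G.kill ev d hd (G.y_mem i)) ev
  obtain ⟨d, -, hd, -⟩ := G.exists_left
  let e := evL (G.ez ev)
  obtain ⟨σ, hσ, σ1, σ2⟩ := complete_with (φ := φ) (by simp [G.card])
    (fun l c => e ⟨D c (G.y l), hD.pres c _ (hy l)⟩) (fun i c => d i (e ⟨_, hD.mem c⟩))
    fun i l => by
      have h1 : TwD e ((d i : Ω →ₗ[ℂ] Ω).toAddMonoidHom.comp (e : G.Oz ev →+ Ω)) :=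
        ⟨fun f g => (congrArg (d i) (map_mul e f g)).trans ((d i).leibniz _ _),
          fun c => (congrArg (d i) (e.commutes c)).trans ((d i).map_algebraMap c)⟩
      rw [← hd i l, ← G.evL_k ev (f := ⟨_, hy l⟩) (G.y_mem l)]
      exact (hD.expand h1 ⟨_, hy l⟩).symm
  let z : Fin φ → M := S.crd j L.ζ ∘ σ
  have hT : ∀ o, (Sum.elim G.y z ∘ G.ε) o ∈ G.Oz ev := fun o => by
    rw [Function.comp_apply]
    rcases G.ε o with c | c
    · exact hy c
    · exact hD.mem _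
  let J : Matrix (Option (Fin n)) (Option (Fin n)) (G.Oz ev) :=
    Matrix.of fun c o => ⟨D c ((Sum.elim G.y z ∘ G.ε) o), hD.pres c _ (hT o)⟩
  have h1 : e J.det ≠ 0 := by
    rw [AlgHom.map_det]
    refine ((Matrix.isUnit_iff_isUnit_det _).1
      (Matrix.linearIndependent_cols_iff_isUnit.1 ?_)).ne_zero
    convert hσ.comp G.ε G.ε.injective using 1
    funext o c
    have h2 : ∀ (u : Fin b ⊕ Fin φ) (hu : D c (Sum.elim G.y z u) ∈ G.Oz ev), e ⟨_, hu⟩ =
        Sum.elim (fun l c => e ⟨D c (G.y l), hD.pres c _ (hy l)⟩)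
          (fun i => (Pi.single (σ i) (1 : Ω) : Option (Fin n) → Ω)) u c := by
      rintro (u | u) hu
      · rfl
      · rw [show (⟨_, hu⟩ : G.Oz ev) = if c = σ u then 1 else 0 from
          Subtype.ext ((hD.dual c (σ u)).trans (by split_ifs <;> rfl)), Sum.elim_inr,
          Pi.single_apply]
        split_ifs
        · exact map_one e
        · exact map_zero e
    exact h2 (G.ε o) (hD.pres c _ (hT o))
  have h2 : (J.det : M) = (Matrix.of fun c o => D c ((Sum.elim G.y z ∘ G.ε) o)).det :=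
    (G.Oz ev).val.map_det J
  have h3 := inv_mem _ h1
  have h4 : (J.det : M) ≠ 0 := fun h => h1 (by rw [show J.det = 0 from Subtype.ext h, map_zero])
  obtain ⟨D', hD'⟩ := hD.exchange _ hT (h2 ▸ h4) (h2 ▸ h3)
  have h5 := hD'.equiv G.ε.symm
  rw [Function.comp_assoc, Equiv.self_comp_symm, Function.comp_id] at h5
  let T : Option (Fin n) → S.B j := fun o => ⟨_, S.crd_mem j L.ζ o⟩
  let d' : Option (Fin n) → ℕ := fun o => o.elim 0 L.d
  let u : S.B j := S.inB j L.s * T none ^ (S.m + 1) *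
    ∏ o, T o ^ if G.ez ev (T o) = 0 then 0 else d' o
  have hu : G.ez ev u ≠ 0 := by
    rw [map_mul, map_mul, map_pow, map_prod]
    refine mul_ne_zero (mul_ne_zero (left_ne_zero_of_mul hL) (pow_ne_zero _ (G.ez_v ev)))
      (Finset.prod_ne_zero_iff.2 fun o _ => ?_)
    split_ifs with h
    · simp
    · rw [map_pow]
      exact pow_ne_zero _ h
  have hr := coe_ne_zero (right_ne_zero_of_mul hL)
  refine ⟨σ, _, Finsupp.equivFunOnFinite.symm fun c =>
    if G.ez ev (T (σ c)) = 0 then d' (σ c) else 0, u * (S.inB j L.r : M)⁻¹ * (J.det : M) ^ S.m, h5,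
    fun c => ?_, fun c hc => ?_, ?_, ?_, ?_, ?_⟩
  · rw [Finsupp.coe_equivFunOnFinite_symm]
    split_ifs
    · rcases σ c with _ | l
      · exact Nat.pos_of_ne_zero S.mpos
      · exact L.lt l
    · exact Nat.pos_of_ne_zero S.mpos
  · by_contra h
    exact hc (if_neg h)
  · exact mul_ne_zero (mul_ne_zero (coe_ne_zero hu) (inv_ne_zero hr)) (pow_ne_zero _ h4)
  · exact mul_mem (mul_mem (le_loc _ u.2) (inv_mem' (right_ne_zero_of_mul hL))) (pow_mem J.det.2 _)
  · rw [mul_inv, mul_inv, inv_inv, ← inv_pow]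
    exact mul_mem (mul_mem (inv_mem' hu) (le_loc _ (S.inB j L.r).2)) (pow_mem h3 _)
  · have e1 : ∏ c, z c ^ (if G.ez ev (T (σ c)) = 0 then d' (σ c) else 0) =
        ∏ o, (T o : M) ^ if G.ez ev (T o) = 0 then d' o else 0 :=
      Fintype.prod_of_injective σ σ1 _ _ (fun o ho => by
        rw [if_neg fun h => ho (σ2 o fun i => by
          rw [show e ⟨_, hD.mem o⟩ = 0 from (evL_eq (g := T o) rfl).trans h, map_zero]), pow_zero])
        fun c => rfl
    have e2 : (∏ o, (T o : M) ^ if G.ez ev (T o) = 0 then 0 else d' o) *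
        ∏ o, (T o : M) ^ (if G.ez ev (T o) = 0 then d' o else 0) =
        algebraMap K M (∏ l, (L.ζ l : K) ^ L.d l) := by
      have e3 : ∀ o, ((T o : M) ^ if G.ez ev (T o) = 0 then 0 else d' o) *
          (T o : M) ^ (if G.ez ev (T o) = 0 then d' o else 0) = (T o : M) ^ d' o := fun o => by
        split_ifs <;> simp
      rw [← Finset.prod_mul_distrib, Finset.prod_congr rfl fun o _ => e3 o, Fintype.prod_option,
        map_prod]
      exact (congrArg (· * _) (pow_zero _)).trans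
        ((one_mul _).trans (Finset.prod_congr rfl fun l _ => (map_pow _ _ _).symm))
    have e3 : jac S.D (fun l => (L.ζ l : K)) ^ S.m / S.g j =
        L.s * (L.r : K)⁻¹ * ∏ l, (L.ζ l : K) ^ L.d l := by
      have h6 : (L.r : K) ≠ 0 := fun h => hr (by rw [S.coe_inB, h, map_zero])
      have h7 := (S.g j).ne_zero
      field_simp
      linear_combination L.form
    have e4 : S.mu (S.crd j L.ζ) = _ := S.mu_v j fun l => (L.ζ l : K)
    rw [S.mu_chain hD.toFrame, ← h2, e4, e3, map_mul, map_mul, map_inv₀, ← e2,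
      Finsupp.coe_equivFunOnFinite_symm, e1]
    simp only [u, MulMemClass.coe_mul, SubmonoidClass.coe_pow, SubmonoidClass.coe_finsetProd,
      S.coe_inB]
    change _ = _ * S.v j ^ (S.m + 1) * _ * _ * _ * _
    ring

end Geo

end Pool.Agent.Lib.MP_bc213e_ag.DD
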