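import Pool.Agent.Lib.MP_bc213e_ag.DL.Loc

/-! Twisted derivations and change of coordinates. -/

namespace Pool.Agent.Lib.MP_bc213e_ag.DD

open Pool.Agent.Lib.MP_bc213e_ag.Hyp Pool.Agent.Lib.MP_bc213e_ag.DL

section twd

variable {A S N : Type} [CommRing A] [Algebra ℂ A] [CommRing S] [Algebra ℂ S] [AddCommGroup N]
  [Module S N] {β : A →ₐ[ℂ] S} {δ : A →+ N}

/-- The elements that are killed by `δ`. -/
def TwD.zs (h : TwD β δ) : Subalgebra ℂ A where
  carrier := {f | δ f = 0}
  mul_mem' := fun {f g} hf hg => by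
    change δ (f * g) = 0
    rw [h.mul, show δ f = 0 from hf, show δ g = 0 from hg, smul_zero, smul_zero, add_zero]
  add_mem' := fun {f g} hf hg => by
    change δ (f + g) = 0
    rw [map_add, show δ f = 0 from hf, show δ g = 0 from hg, add_zero]
  algebraMap_mem' := h.const

theorem TwD.mem_zs (h : TwD β δ) {f : A} : f ∈ h.zs ↔ δ f = 0 := Iff.rfl

theorem TwD.of_mul (h : TwD β δ) {u f : A} (hu : IsUnit u) (h1 : δ u = 0) (h2 : δ (u * f) = 0) :
    δ f = 0 := by
  rw [h.mul, h1, smul_zero, add_zero] at h2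
  exact (hu.map β).smul_eq_zero.1 h2

theorem TwD.comp {A' : Type} [CommRing A'] [Algebra ℂ A'] (h : TwD β δ) (γ : A' →ₐ[ℂ] A) :
    TwD (β.comp γ) (δ.comp (γ : A' →+ A)) :=
  ⟨fun f g => (congrArg δ (map_mul γ f g)).trans (h.mul _ _),
    fun c => (congrArg δ (γ.commutes c)).trans (h.const c)⟩

/-- Sketch: make `N` a module over `A` and over `ℂ` by `Module.compHom`; then `δ` is a
`Derivation ℂ A N`; apply `Derivation.liftKaehlerDifferential`. -/
theorem TwD.kaehler (h : TwD β δ) {κ : Type} [Fintype κ] (a f : κ → A)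
    (h0 : ∑ i, a i • KaehlerDifferential.D ℂ A (f i) = 0) : ∑ i, β (a i) • δ (f i) = 0 := by
  let mA : Module A N := Module.compHom N (β : A →+* S)
  let mC : Module ℂ N := Module.compHom N (algebraMap ℂ S)
  have sA : ∀ (x : A) (v : N), x • v = β x • v := fun _ _ => rfl
  have sC : ∀ (x : ℂ) (v : N), x • v = algebraMap ℂ S x • v := fun _ _ => rfl
  have st : IsScalarTower ℂ A N :=
    ⟨fun c x v => by rw [sA, sC, sA, map_smul, Algebra.smul_def, mul_smul]⟩
  let d : Derivation ℂ A N := Derivation.mk'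
    { toFun := δ
      map_add' := map_add δ
      map_smul' := fun c x => by
        rw [Algebra.smul_def, h.mul, h.const, smul_zero, add_zero, AlgHom.commutes]
        rfl } h.mul
  have h1 := congrArg d.liftKaehlerDifferential h0
  rw [map_sum, map_zero] at h1
  refine Eq.trans (Finset.sum_congr rfl fun i _ => ?_) h1
  rw [map_smul, Derivation.liftKaehlerDifferential_comp_D]
  rfl

end twd

section coo

variable {M κ : Type} [Field M] [Algebra ℂ M] [DecidableEq κ] {O : Subalgebra ℂ M} {T : κ → M}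
  {D : κ → Derivation ℂ M M}

theorem Coo.equiv {κ' : Type} [DecidableEq κ'] (h : Coo O T D) (ε : κ' ≃ κ) :
    Coo O (T ∘ ε) (D ∘ ε) :=
  ⟨h.toFrame.equiv ε, fun c => h.mem _, fun c => h.pres _, fun S N _ _ _ _ β δ h1 h2 =>
    h.et S N β δ h1 fun c => by simpa using h2 (ε.symm c)⟩

/-- The formula for a twisted derivation with values in a ring. Sketch: `et` applied to the
difference of the two sides. -/
theorem Coo.expand [Fintype κ] (h : Coo O T D) {S N : Type} [CommRing S] [Algebra ℂ S]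
    [AddCommGroup N] [Module S N] {β : O →ₐ[ℂ] S} {δ : O →+ N} (hδ : TwD β δ) (f : O) :
    δ f = ∑ c, β ⟨D c f, h.pres c f f.2⟩ • δ ⟨T c, h.mem c⟩ := by
  let d : κ → O →+ O := fun c => AddMonoidHom.mk' (fun f => ⟨D c f, h.pres c f f.2⟩)
    fun f g => Subtype.ext (map_add (D c) (f : M) g)
  have d1 : ∀ c f g, d c (f * g) = f * d c g + g * d c f := fun c f g =>
    Subtype.ext ((D c).leibniz (f : M) g)
  have d2 : ∀ c (x : ℂ), d c (algebraMap ℂ O x) = 0 := fun c x =>
    Subtype.ext ((D c).map_algebraMap x)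
  have d3 : ∀ c e, d c ⟨T e, h.mem e⟩ = if c = e then 1 else 0 := fun c e => Subtype.ext (by
    change D c (T e) = _
    rw [h.dual]
    split_ifs <;> rfl)
  let E : O →+ N := AddMonoidHom.mk' (fun f => δ f - ∑ c, β (d c f) • δ ⟨T c, h.mem c⟩)
    fun f g => by
      simp only [map_add, add_smul, Finset.sum_add_distrib]
      abel
  have E0 : ∀ f, E f = δ f - ∑ c, β (d c f) • δ ⟨T c, h.mem c⟩ := fun _ => rfl
  have h1 := h.et S N β E ⟨fun f g => ?_, fun x => ?_⟩ fun e => ?_
  · exact sub_eq_zero.1 ((E0 f).symm.trans (DFunLike.congr_fun h1 f))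
  · simp only [E0, hδ.mul, d1, map_add, map_mul, add_smul, mul_smul, Finset.sum_add_distrib,
      smul_sub, Finset.smul_sum]
    abel
  · simp only [E0, hδ.const, d2, map_zero, zero_smul, Finset.sum_const_zero, sub_zero]
  · rw [E0, Finset.sum_eq_single e, d3, if_pos rfl, map_one, one_smul, sub_self]
    · intro c _ hc
      rw [d3, if_neg hc, map_zero, zero_smul]
    · exact fun hc => absurd (Finset.mem_univ e) hc

private theorem twd_sum_apply (s : Finset κ) (E : κ → Derivation ℂ M M) (f : M) :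
    (∑ d ∈ s, E d) f = ∑ d ∈ s, E d f := by
  induction s using Finset.induction_on with
  | empty => rw [Finset.sum_empty, Finset.sum_empty, Derivation.zero_apply]
  | insert a s ha ih => rw [Finset.sum_insert ha, Finset.sum_insert ha, Derivation.add_apply, ih]

/-- Sketch: with `J = of fun c d => D c (T' d)` put `D' c = ∑ d, J⁻¹ c d • D d`; use
`frame_of_dual`, `TCI.trdeg_eq_card`. -/
theorem Frame.exchange [Fintype κ] (h : Frame T D) (T' : κ → M)
    (h0 : (Matrix.of fun c d => D c (T' d)).det ≠ 0) : ∃ D', Frame T' D' ∧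
      ∀ c f, D' c f = ∑ d, (Matrix.of fun c d => D c (T' d))⁻¹ c d * D d f := by
  have h1 : ∀ c f, (∑ d, (Matrix.of fun c d => D c (T' d))⁻¹ c d • D d) f =
      ∑ d, (Matrix.of fun c d => D c (T' d))⁻¹ c d * D d f := fun c f => twd_sum_apply _ _ f
  refine ⟨fun c => ∑ d, (Matrix.of fun c d => D c (T' d))⁻¹ c d • D d,
    frame_of_dual (fun c e => ?_) (TCI.trdeg_eq_card T h.tb), h1⟩
  rw [h1, ← Matrix.one_apply, ← Matrix.nonsing_inv_mul _ (Ne.isUnit h0), Matrix.mul_apply]
  rfl

/-- Sketch: the entries of the inverse matrix lie in `O` (adjugate of the matrix over `O`). For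
`et` use `Coo.expand`: `0 = δ (T' d) = ∑ c, β (J c d) • δ (T c)` and `β J` is invertible. -/
theorem Coo.exchange [Fintype κ] (h : Coo O T D) (T' : κ → M) (hT : ∀ c, T' c ∈ O)
    (h0 : (Matrix.of fun c d => D c (T' d)).det ≠ 0)
    (h1 : (Matrix.of fun c d => D c (T' d)).det⁻¹ ∈ O) : ∃ D', Coo O T' D' := by
  obtain ⟨D', hF, hD⟩ := h.toFrame.exchange T' h0
  let J : Matrix κ κ O := Matrix.of fun c d => ⟨D c (T' d), h.pres c _ (hT d)⟩
  have e1 : (O.val : O →+* M).mapMatrix J = Matrix.of fun c d => D c (T' d) := rfl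
  have e2 : ((J.det : O) : M) = (Matrix.of fun c d => D c (T' d)).det :=
    (RingHom.map_det (O.val : O →+* M) J).trans (congrArg Matrix.det e1)
  have hu : IsUnit J.det := IsUnit.of_mul_eq_one ⟨_, h1⟩ (Subtype.ext (by
    rw [MulMemClass.coe_mul, e2]
    exact mul_inv_cancel₀ h0))
  have e3 := Matrix.mul_nonsing_inv J hu
  have e4 : (Matrix.of fun c d => D c (T' d))⁻¹ = (O.val : O →+* M).mapMatrix J⁻¹ :=
    Matrix.inv_eq_right_inv (by rw [← e1, ← map_mul, e3, map_one])
  refine ⟨D', hF, hT, fun c f hf => ?_, fun S N _ _ _ _ β δ hδ hz => h.et S N β δ hδ fun e => ?_⟩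
  · rw [hD, e4]
    exact sum_mem fun d _ => mul_mem (J⁻¹ c d).2 (h.pres d f hf)
  · have h2 : ∀ d, ∑ c, β (J c d) • δ ⟨T c, h.mem c⟩ = 0 := fun d =>
      (h.expand hδ ⟨T' d, hT d⟩).symm.trans (hz d)
    have h3 : ∑ c, β ((J * J⁻¹) c e) • δ ⟨T c, h.mem c⟩ = 0 := by
      simp only [Matrix.mul_apply, map_sum, Finset.sum_smul]
      rw [Finset.sum_comm]
      refine Finset.sum_eq_zero fun d _ => ?_
      simp only [map_mul, mul_comm (β (J _ d)), mul_smul]
      rw [← Finset.smul_sum, h2, smul_zero]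
    rw [e3, Finset.sum_eq_single e, Matrix.one_apply_eq, map_one, one_smul] at h3
    · exact h3
    · intro c _ hc
      rw [Matrix.one_apply_ne hc, map_zero, zero_smul]
    · exact fun hc => absurd (Finset.mem_univ e) hc

end coo

end Pool.Agent.Lib.MP_bc213e_ag.DD
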