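import Pool.Agent.Lib.MP_bc213e_ag.DL.Loc

/-! Isolated points of fibres. -/

namespace Pool.Agent.Lib.MP_bc213e_ag.DL

/-- Sketch: let `p = q.under R`, `I = p.map (algebraMap R S)`. A minimal prime `q'` of `I` with
`q' ≤ q` lies over `p` and equals `q` (`Ideal.comap_lt_comap_of_root_mem_sdiff`); in the same way a
prime over `p` that contains `q` equals `q`. Take `f ∉ q` in all other minimal primes of `I`
(finitely many). Then `q` is the only point of the fibre in `basicOpen f`;
`Algebra.QuasiFiniteAt.of_isOpen_singleton_fiber`, `Algebra.ZariskisMainProperty.of_finiteType`,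
`Algebra.zariskisMainProperty_iff`. -/
theorem zmt {R S : Type} [CommRing R] [CommRing S] [Algebra R S] [Algebra.FiniteType R S]
    [IsNoetherianRing S] (q : Ideal S) [q.IsPrime]
    (h : ∀ q' : Ideal S, q'.IsPrime → q' ≤ q → q'.under R = q.under R → ∀ s : S,
      ∃ P : Polynomial R, P.map (Ideal.Quotient.mk (q'.under R)) ≠ 0 ∧ Polynomial.aeval s P ∈ q') :
    ∃ r ∉ q, IsIntegral R r ∧ ∀ x, ∃ m : ℕ, IsIntegral R (r ^ m * x) := by
  classical
  have hA : ∀ q' : Ideal S, q'.IsPrime → q' ≤ q → q'.under R = q.under R → q' = q := by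
    intro q' hq' hle he
    by_contra hne
    obtain ⟨r, hr, hr'⟩ := SetLike.exists_of_lt (lt_of_le_of_ne hle hne)
    obtain ⟨P, hP, hP'⟩ := h q' hq' hle he r
    exact (Ideal.comap_lt_comap_of_root_mem_sdiff (f := algebraMap R S) hle ⟨hr, hr'⟩ hP hP').ne he
  have hB : ∀ Q : Ideal S, q ≤ Q → Q.under R = q.under R → Q = q := by
    intro Q hle he
    by_contra hne
    obtain ⟨r, hr, hr'⟩ := SetLike.exists_of_lt (lt_of_le_of_ne hle (Ne.symm hne))
    obtain ⟨P, hP, hP'⟩ := h q inferInstance le_rfl rfl r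
    exact (Ideal.comap_lt_comap_of_root_mem_sdiff (f := algebraMap R S) hle ⟨hr, hr'⟩ hP hP').ne'
      he
  let I : Ideal S := (q.under R).map (algebraMap R S)
  have hfin := Ideal.finite_minimalPrimes_of_isNoetherianRing S I
  have hC : ∀ q' : Ideal S, ∃ f : S, f ∉ q ∧ (q' ∈ I.minimalPrimes → q' ≠ q → f ∈ q') := by
    intro q'
    by_cases hle : q' ≤ q
    · refine ⟨1, (Ideal.ne_top_iff_one q).1 (Ideal.IsPrime.ne_top inferInstance),
        fun hm hne => absurd (hA q' hm.1.1 hle ?_) hne⟩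
      exact le_antisymm (Ideal.comap_mono hle) (Ideal.map_le_iff_le_comap.1 hm.1.2)
    · obtain ⟨f, hf, hf'⟩ := SetLike.not_le_iff_exists.1 hle
      exact ⟨f, hf', fun _ _ => hf⟩
  choose f hf hf' using hC
  have hF : ∏ q' ∈ hfin.toFinset, f q' ∉ q := fun hm => by
    obtain ⟨q', -, h1⟩ := Ideal.IsPrime.prod_mem_iff.1 hm
    exact hf q' h1
  have hQ : Algebra.QuasiFiniteAt R q := by
    refine Algebra.QuasiFiniteAt.of_isOpen_singleton_fiber (R := R) ⟨q, inferInstance⟩ ?_
    refine isOpen_induced_iff.2 ⟨PrimeSpectrum.basicOpen (∏ q' ∈ hfin.toFinset, f q'),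
      (PrimeSpectrum.basicOpen _).isOpen, ?_⟩
    ext ⟨Q, hQ⟩
    refine ⟨fun h1 => ?_, fun h1 => ?_⟩
    · have he : Q.asIdeal.under R = q.under R := congrArg PrimeSpectrum.asIdeal hQ
      obtain ⟨q', hm, hle⟩ := Ideal.exists_minimalPrimes_le (I := I) (J := Q.asIdeal)
        (Ideal.map_le_iff_le_comap.2 he.ge)
      have h2 : q' = q := by
        by_contra hne
        exact h1 (hle (Ideal.mem_of_dvd q' (Finset.dvd_prod_of_mem f (hfin.mem_toFinset.2 hm))
          (hf' q' hm hne)))
      exact Subtype.ext (PrimeSpectrum.ext (hB _ (h2 ▸ hle) he))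
    · obtain rfl : Q = ⟨q, inferInstance⟩ := congrArg Subtype.val h1
      exact hF
  exact Algebra.zariskisMainProperty_iff.1 (Algebra.ZariskisMainProperty.of_finiteType q)

/-- Sketch: otherwise `x` is transcendental over the field generated by `L`;
`KBA.exists_der_one`, `Derivation.restrictScalars`. -/
theorem alg_of_der {Ω : Type} [Field Ω] [Algebra ℂ Ω] (L : Subalgebra ℂ Ω) {x : Ω}
    (h : ∀ d : Derivation ℂ Ω Ω, (∀ f ∈ L, d f = 0) → d x = 0) : IsAlgebraic L x := by
  by_contra hx
  let _ : Algebra (FractionRing L) Ω := FractionRing.liftAlgebra L Ω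
  have : IsScalarTower L (FractionRing L) Ω := FractionRing.isScalarTower_liftAlgebra L Ω
  have : CharZero Ω := charZero_of_injective_algebraMap (algebraMap ℂ Ω).injective
  have : CharZero (FractionRing L) := RingHom.charZero (algebraMap (FractionRing L) Ω)
  obtain ⟨D, hD⟩ := KBA.exists_der_one (L := FractionRing L) (y := x)
    fun h1 => hx ((IsFractionRing.isAlgebraic_iff L (FractionRing L) Ω).2 h1)
  have h2 := h ((D.restrictScalars L).restrictScalars ℂ) fun f hf =>
    (D.restrictScalars L).map_algebraMap ⟨f, hf⟩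
  exact one_ne_zero (hD.symm.trans h2)

end Pool.Agent.Lib.MP_bc213e_ag.DL
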